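import Pool.Agent.Lib.H25W.Rel
import Pool.Agent.Lib.H76Q.A4

/-!
# Hodge: linear relations between the ranks of the Hodge projectors do not depend on `l`
-/

set_option autoImplicit false
set_option linter.unusedSectionVars false
namespace Pool.Agent.H45U
open Pool.Agent.H76Y Pool.Agent.H76Z
open Pool.Agent.H76P Pool.Agent.H76V Pool.Agent.H76Q
open Module Matrix Polynomial Pool.Agent.H53Toric
open Pool.Agent.H76P
open Pool.Agent.H76T (IsIdeal Fam Lc)
open Pool.Agent.H76U (cmp preL IsSplitting)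
open Pool.Agent.H76RM (spanK similD)

theorem hg_vz {K : Type*} [Field K] [CharZero K] [IsAlgClosed K] {v : K → ℚ} (hv : IsVal v) {x : K} (hx : x ≠ 0) (a : ℤ) :
    v (x ^ a) = a * v x := by
  obtain ⟨-, -, h1, h2⟩ := IsVal.basic hv
  rcases a with n | n
  · rw [Int.ofNat_eq_natCast, zpow_natCast, h2 x hx n, Int.cast_natCast]
  · rw [zpow_negSucc, h1 _ (pow_ne_zero _ hx), h2 x hx, Int.cast_negSucc]
    push_cast
    ring

theorem hg_vprod {K : Type*} [Field K] [CharZero K] [IsAlgClosed K] {v : K → ℚ} (hv : IsVal v) {B : Type*} (s : Finset B) (x : B → K)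
    (hx : ∀ b, x b ≠ 0) : v (∏ b ∈ s, x b) = ∑ b ∈ s, v (x b) := by
  classical
  induction s using Finset.induction_on with
  | empty => rw [Finset.prod_empty, Finset.sum_empty, (IsVal.basic hv).1]
  | insert c s hc ih =>
    rw [Finset.prod_insert hc, Finset.sum_insert hc, hv.mul _ _ (hx c) (Finset.prod_ne_zero_iff.2 fun b _ => hx b), ih]

variable {ι : Type*} [Fintype ι] [DecidableEq ι] {ψ : Matrix ι ι ℚ}
    {D : Subalgebra ℚ (Matrix ι ι ℚ)} {M : Type*} [Field M] [NumberField M]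
    {m : ℕ} {cl : Fin m → Cl} {bar : Fin m → Fin m} {e : Fin m → Matrix ι ι M} {u₀ : Matrix ι ι M} {G : Type*} [Group G]
    {ρ : ∀ (l : ℕ) [Fact l.Prime], G →* Matrix.GeneralLinearGroup ι ℚ_[l]}
    {p : ℕ} [Fact p.Prime] {σ : G} {q : ℚ} {F : Fin m → M[X]}
    {φ μ ν : Matrix ι ι (AlgebraicClosure ℚ_[p])} {v : AlgebraicClosure ℚ_[p] → ℚ}
    {Δ : Set (AlgebraicClosure ℚ_[p] ≃+* AlgebraicClosure ℚ_[p])}
    {Ω : Type*} [Field Ω] [CharZero Ω] [IsAlgClosed Ω] [Algebra.IsAlgebraic ℚ Ω] {j : M →+* Ω}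
    {R : Finset Ω} {N : Set ℕ} {hd : Fin m → Ω → ℕ} {ub : Fin m → Prop}
    (C : Core5a ψ D cl bar e u₀ ρ p σ q F φ μ ν v Δ j R N hd ub)

include C

/-- The data at the prime `l` for all components. -/
theorem Core5a.at_l (l : ℕ) [Fact l.Prime] (i : Ω →+* AlgebraicClosure ℚ_[l]) :
    ∃ (x x' : Matrix ι ι (AlgebraicClosure ℚ_[l])) (H : Subgroup G), H.FiniteIndex ∧
      PH (img (AlgebraicClosure ℚ_[l]) (ρ l) H) (ψ.map (algebraMap ℚ (AlgebraicClosure ℚ_[l])))
        (spanK (AlgebraicClosure ℚ_[l]) D) (properProj (AlgebraicClosure ℚ_[l]) (ρ l)) x x' ∧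
      xᵀ * ψ.map (algebraMap ℚ (AlgebraicClosure ℚ_[l])) * x =
        algebraMap ℚ (AlgebraicClosure ℚ_[l]) q • ψ.map (algebraMap ℚ (AlgebraicClosure ℚ_[l])) ∧
      ∀ (b : Fin m) {n : ℕ} {a : Fin n → Ω}, Function.Injective a →
        (∀ y : Ω, (F b).eval₂ j y = 0 ↔ ∃ k, y = a k) →
        ∃ (U : Matrix ι (Fin n) (AlgebraicClosure ℚ_[l])) (V : Matrix (Fin n) ι (AlgebraicClosure ℚ_[l])),
          (e b).map (i.comp j) = U * V ∧ V * U = 1 ∧ x * U = U * Matrix.diagonal (fun k => i (a k)) := by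
  have hne : Nonempty ι := by
    by_contra hemp
    rw [not_nonempty_iff] at hemp
    exact C.crys.mu.2.1 (by ext i; exact (hemp.false i).elim)
  obtain ⟨H, -, hfin, hprime⟩ := H76RM.exists_prime (K := AlgebraicClosure ℚ_[l]) (ρ l) ⊤ inferInstance
  by_cases hl : l = p
  · subst hl
    obtain ⟨x', hPH⟩ := mk_phT C.hψ C.hψ0 D (ρ l) (C.lin l) (C.sim l) (C.semis l) (C.commt l) (C.gen l)
      C.frobp hfin hprime
    refine ⟨φ, x', H, hfin, hPH, C.multp, fun b n a ha hroot => ?_⟩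
    obtain ⟨H₀, U, V, -, hL, -⟩ := C.locp0 b ha hroot i
    exact ⟨U, V, hL.UV, hL.VU, hL.ec.eig⟩
  · obtain ⟨x', hPH⟩ := mk_phT C.hψ C.hψ0 D (ρ l) (C.lin l) (C.sim l) (C.semis l) (C.commt l) (C.gen l)
      (C.frob l hl) hfin hprime
    have hmult : ((ρ l σ).1.map (algebraMap ℚ_[l] (AlgebraicClosure ℚ_[l])))ᵀ *
        ψ.map (algebraMap ℚ (AlgebraicClosure ℚ_[l])) * (ρ l σ).1.map (algebraMap ℚ_[l] (AlgebraicClosure ℚ_[l])) =
        algebraMap ℚ (AlgebraicClosure ℚ_[l]) q • ψ.map (algebraMap ℚ (AlgebraicClosure ℚ_[l])) := by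
      have h1 := congrArg (fun m : Matrix ι ι ℚ_[l] => m.map (algebraMap ℚ_[l] (AlgebraicClosure ℚ_[l]))) (C.mult l hl)
      have h2 : (ψ.map (algebraMap ℚ ℚ_[l])).map (algebraMap ℚ_[l] (AlgebraicClosure ℚ_[l])) =
          ψ.map (algebraMap ℚ (AlgebraicClosure ℚ_[l])) := by
        ext i j
        simp
      have h3 : (algebraMap ℚ ℚ_[l] q • ψ.map (algebraMap ℚ ℚ_[l])).map
          (algebraMap ℚ_[l] (AlgebraicClosure ℚ_[l])) =
          algebraMap ℚ (AlgebraicClosure ℚ_[l]) q • ψ.map (algebraMap ℚ (AlgebraicClosure ℚ_[l])) := by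
        ext i j
        simp
      simp only [Matrix.map_mul] at h1
      rw [h2, h3, Matrix.transpose_map] at h1
      exact h1
    refine ⟨_, x', H, hfin, hPH, hmult, fun b n a ha hroot => ?_⟩
    obtain ⟨H₀, U, V, -, hL, -⟩ := C.locl0 b ha hroot l hl i
    exact ⟨U, V, hL.UV, hL.VU, hL.ec.eig⟩

/-- The linear relations between the ranks of the Hodge projectors on the components at any prime `l`
are the relations between the multiplicities `hd`. -/
theorem Core5a.hodge_iff (l : ℕ) [Fact l.Prime] (i : Ω →+* AlgebraicClosure ℚ_[l])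
    (a : Fin m → ℤ) (a₀ : ℤ) :
    (∀ h ∈ properProj (AlgebraicClosure ℚ_[l]) (ρ l),
      ∑ b, a b * ((h * (e b).map (i.comp j)).rank : ℤ) + a₀ = 0) ↔
      ∀ r ∈ R, ∑ b, a b * (hd b r : ℤ) + a₀ = 0 := by
  classical
  have hne : Nonempty ι := by
    by_contra hemp
    rw [not_nonempty_iff] at hemp
    exact C.crys.mu.2.1 (by ext i; exact (hemp.false i).elim)
  have hv : IsVal v := C.crys.val
  choose A hA hroot using fun b => C.enum b
  have hA0 : ∀ b k, A b k ≠ 0 := fun b k => C.ne b (hroot b) k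
  have hP0 : ∀ b, (∏ k, A b k) ≠ 0 := fun b => Finset.prod_ne_zero_iff.2 fun k _ => hA0 b k
  obtain ⟨hJt, hJdet⟩ := gram_basic C.hψ C.hψ0 (AlgebraicClosure ℚ_[l])
  have hiq : ∀ {E : Type} [Field E] [CharZero E] (i' : Ω →+* E), i' (algebraMap ℚ Ω q) = algebraMap ℚ E q := by
    intro E _ _ i'
    rw [eq_ratCast, map_ratCast, eq_ratCast]
  have hq0 : algebraMap ℚ Ω q ≠ 0 := by
    intro h0
    have h1 : q = 0 := by
      rw [← map_zero (algebraMap ℚ Ω)] at h0
      exact (algebraMap ℚ Ω).injective h0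
    have h2 := C.vq
    have h3 := C.multp
    rw [h1, map_zero, zero_smul] at h3
    have h4 := congrArg Matrix.det h3
    obtain ⟨-, hdet⟩ := gram_basic C.hψ C.hψ0 (AlgebraicClosure ℚ_[p])
    rw [Matrix.det_mul, Matrix.det_mul, Matrix.det_transpose, Matrix.det_zero] at h4
    exact mul_ne_zero (mul_ne_zero C.frobp.idc.1 hdet.ne_zero) C.frobp.idc.1 h4
  obtain ⟨z, hz⟩ : ∃ z : Ω, z = (∏ b, (∏ k, A b k) ^ a b) * (algebraMap ℚ Ω q) ^ a₀ := ⟨_, rfl⟩
  have hz0 : z ≠ 0 := by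
    rw [hz]
    exact mul_ne_zero (Finset.prod_ne_zero_iff.2 fun b _ => zpow_ne_zero _ (hP0 b)) (zpow_ne_zero _ hq0)
  have hiz : ∀ {E : Type} [Field E] [CharZero E] (i' : Ω →+* E),
      i' z = (∏ b, (∏ k, i' (A b k)) ^ a b) * (algebraMap ℚ E q) ^ a₀ := by
    intro E _ _ i'
    rw [hz, map_mul, map_prod, map_zpow₀, hiq]
    congr 1
    exact Finset.prod_congr rfl fun b _ => by rw [map_zpow₀, map_prod]
  obtain ⟨x, x', H, hfin, hPH, hmult, hUV⟩ := C.at_l l i
  choose U V hUV1 hVU1 heig using fun b => hUV b (hA b) (hroot b)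
  have hspl : Splits D ψ cl bar (fun c => (e c).map (i.comp j)) (u₀.map (i.comp j)) := C.hspl.map (i.comp j)
  have hD : ∀ b, (e b).map (i.comp j) ∈ spanK (AlgebraicClosure ℚ_[l]) D := fun b => hspl.mem b
  -- first step
  have step1 : (∀ h ∈ properProj (AlgebraicClosure ℚ_[l]) (ρ l),
      ∑ b, a b * ((h * (e b).map (i.comp j)).rank : ℤ) + a₀ = 0) ↔ ∃ N : ℕ, N ≠ 0 ∧ z ^ N = 1 := by
    constructor
    · intro h1
      obtain ⟨N, hN, hN1⟩ := H25W.rel_tor hPH hJdet.ne_zero hmult hD U V hUV1 hVU1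
        (fun b k => i (A b k)) heig a a₀ h1
      refine ⟨N, hN, ?_⟩
      rw [← hiz i, ← map_pow] at hN1
      exact i.injective (by rw [hN1, map_one])
    · rintro ⟨N, hN, hzN⟩ h hh
      have h2 := H25W.rel_lie hPH hJdet.ne_zero hmult hD U V hUV1 hVU1
        (fun b k => i (A b k)) heig (fun b => (N : ℤ) * a b) ((N : ℤ) * a₀) (by
          have h3 := congrArg i hzN
          rw [map_pow, map_one, hiz i, mul_pow, ← Finset.prod_pow] at h3
          rw [← h3]
          congr 1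
          · refine Finset.prod_congr rfl fun b _ => ?_
            rw [mul_comm (N : ℤ), _root_.zpow_mul, zpow_natCast]
          · rw [mul_comm (N : ℤ), _root_.zpow_mul, zpow_natCast]) hh
      have h4 : (N : ℤ) * (∑ b, a b * ((h * (e b).map (i.comp j)).rank : ℤ) + a₀) = 0 := by
        rw [← h2, mul_add, Finset.mul_sum]
        congr 1
        exact Finset.sum_congr rfl fun b _ => by ring
      exact (mul_eq_zero.1 h4).resolve_left (Nat.cast_ne_zero.2 hN)
  -- second step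
  have hi0 : ∀ (i' : Ω →+* AlgebraicClosure ℚ_[p]) {y : Ω}, y ≠ 0 → i' y ≠ 0 := fun i' y hy => (map_ne_zero i').2 hy
  have step2 : (∃ N : ℕ, N ≠ 0 ∧ z ^ N = 1) ↔ ∀ i' : Ω →+* AlgebraicClosure ℚ_[p], v (i' z) = 0 := by
    constructor
    · rintro ⟨N, hN, hzN⟩ i'
      have h1 := (IsVal.basic hv).2.2.2 (i' z) (hi0 i' hz0) N
      rw [← map_pow, hzN, map_one, (IsVal.basic hv).1] at h1
      exact (mul_eq_zero.1 h1.symm).resolve_left (Nat.cast_ne_zero.2 hN)
    · intro h1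
      obtain ⟨N, hN, hN1⟩ := C.tors (Units.mk0 z hz0) (by
        have h2 : Units.mk0 z hz0 = (∏ b, (∏ k, Units.mk0 (A b k) (hA0 b k)) ^ a b) *
            (Units.mk0 (algebraMap ℚ Ω q) hq0) ^ a₀ := by
          apply Units.ext
          rw [Units.val_mk0, hz, Units.val_mul, Units.coe_prod, Units.val_zpow_eq_zpow_val, Units.val_mk0]
          congr 1
          refine Finset.prod_congr rfl fun b _ => ?_
          rw [Units.val_zpow_eq_zpow_val, Units.coe_prod]
          simp only [Units.val_mk0]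
        rw [h2]
        refine mul_mem (prod_mem fun b _ => zpow_mem (prod_mem fun k _ => Subgroup.subset_closure ?_) _)
          (zpow_mem (Subgroup.subset_closure ?_) _)
        · exact Or.inr ⟨b, (hroot b _).2 ⟨k, rfl⟩⟩
        · exact Or.inl rfl) h1
      refine ⟨N, hN, ?_⟩
      have h3 := congrArg (fun u : Ωˣ => (u : Ω)) hN1
      simpa using h3
  -- third step
  have hval : ∀ (i' : Ω →+* AlgebraicClosure ℚ_[p]) (r : Ω), r ∈ R → v (i' r) = 1 →
      v (i' z) = ((∑ b, a b * (hd b r : ℤ) + a₀ : ℤ) : ℚ) := by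
    intro i' r hr hvr
    have hQ0 : algebraMap ℚ (AlgebraicClosure ℚ_[p]) q ≠ 0 := by
      rw [← hiq i']
      exact hi0 i' hq0
    have hb0 : ∀ b, (∏ k, i' (A b k)) ≠ 0 := fun b =>
      Finset.prod_ne_zero_iff.2 fun k _ => hi0 i' (hA0 b k)
    rw [hiz i', hv.mul _ _ (Finset.prod_ne_zero_iff.2 fun b _ => zpow_ne_zero _ (hb0 b)) (zpow_ne_zero _ hQ0),
      hg_vprod hv _ _ (fun b => zpow_ne_zero _ (hb0 b)), hg_vz hv hQ0, C.vq, mul_one]
    push_cast
    congr 1
    refine Finset.sum_congr rfl fun b _ => ?_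
    rw [hg_vz hv (hb0 b), ← map_prod, C.vprod b (hA b) (hroot b) i', C.hdg b i' r hr hvr]
  rw [step1, step2]
  constructor
  · intro h1 r hr
    obtain ⟨i', hi'⟩ := C.w2_i hr
    have h2 := hval i' r hr hi'
    rw [h1 i'] at h2
    exact_mod_cast h2.symm
  · intro h1 i'
    obtain ⟨r, hr, hr1, -⟩ := C.Rval i'
    rw [hval i' r hr hr1, h1 r hr, Int.cast_zero]

end Pool.Agent.H45U
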