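import Mathlib

/-!
# NN: isomorphisms between the Lie algebras of matrices of trace zero

A Lie algebra of pairs of matrices which is the graph of an isomorphism between the Lie algebras of all
matrices of trace zero is the graph of a conjugation or of the negative of a conjugation composed with the
transposition.
-/

set_option autoImplicit false
set_option linter.unusedSectionVars false
namespace Pool.Agent.H25W
open Matrix

section
variable {κ : Type*} [Fintype κ] [DecidableEq κ] {K : Type*} [Field K]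

theorem scal_of_comm {N : Matrix κ κ K} (h : ∀ Y, N * Y = Y * N) : ∃ t : K, N = t • 1 := by
  obtain ⟨t, ht⟩ := Matrix.mem_range_scalar_of_commute_single (M := N) (fun i j _ => (h (Matrix.single i j 1)).symm)
  exact ⟨t, by rw [← ht, Matrix.scalar_apply, Matrix.smul_one_eq_diagonal]⟩

/-- A matrix `N ≠ 0` with `N Y N ∈ K N` for all `Y` is a product of a column and a row. -/
theorem rank_one {N : Matrix κ κ K} (h0 : N ≠ 0) (h : ∀ Y, ∃ c : K, N * Y * N = c • N) :
    ∃ u g : κ → K, N = vecMulVec u g := by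
  obtain ⟨k, l, hkl⟩ : ∃ k l, N k l ≠ 0 := by
    by_contra hcon
    push Not at hcon
    exact h0 (by ext i j; exact hcon i j)
  obtain ⟨c, hc⟩ := h (Matrix.single l k 1)
  have key : ∀ a b, N a l * N k b = c * N a b := by
    intro a b
    have h1 := congrFun (congrFun hc a) b
    rw [Matrix.smul_apply, smul_eq_mul] at h1
    rw [← h1, Matrix.mul_apply, Finset.sum_eq_single k]
    · rw [Matrix.mul_apply, Finset.sum_eq_single l]
      · rw [Matrix.single_apply_same, mul_one]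
      · intro x _ hx
        rw [Matrix.single_apply_of_row_ne hx.symm, mul_zero]
      · intro hx
        exact absurd (Finset.mem_univ _) hx
    · intro x _ hx
      rw [Matrix.mul_apply, Finset.sum_eq_zero, zero_mul]
      intro y _
      rw [Matrix.single_apply_of_col_ne _ _ hx.symm, mul_zero]
    · intro hx
      exact absurd (Finset.mem_univ _) hx
  have hc0 : c ≠ 0 := by
    intro h1
    have h2 := key k l
    rw [h1, zero_mul] at h2
    exact hkl (mul_self_eq_zero.1 h2)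
  refine ⟨fun a => N a l, fun b => c⁻¹ * N k b, ?_⟩
  ext a b
  rw [vecMulVec_apply]
  have h1 := key a b
  field_simp
  linear_combination -h1

/-- Two vectors are proportional. -/
def Prl {α : Type*} (u v : α → K) : Prop := ∀ a b, u a * v b = u b * v a

theorem Prl.smul {α : Type*} {u v : α → K} (h : Prl u v) (hu : u ≠ 0) : ∃ c : K, v = c • u := by
  obtain ⟨a, ha⟩ : ∃ a, u a ≠ 0 := by
    by_contra hcon
    push Not at hcon
    exact hu (funext hcon)
  refine ⟨v a / u a, funext fun b => ?_⟩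
  rw [Pi.smul_apply, smul_eq_mul]
  have := h a b
  field_simp
  linear_combination this

theorem Prl.symm {α : Type*} {u v : α → K} (h : Prl u v) : Prl v u := fun a b => by
  have := h b a
  linear_combination this

theorem Prl.trans {α : Type*} {u v w : α → K} (h : Prl u v) (h' : Prl v w) (hu : u ≠ 0) (hv : v ≠ 0) : Prl u w := by
  obtain ⟨c, rfl⟩ := h.smul hu
  obtain ⟨d, rfl⟩ := h'.smul hv
  intro a b
  simp only [Pi.smul_apply, smul_eq_mul]
  ring

/-- If a sum of two matrices of rank one has rank one, then the columns or the rows are proportional. -/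
theorem prl_of_sum {α β : Type*} {u u' w : α → K} {g g' k : β → K}
    (h : vecMulVec u g + vecMulVec u' g' = vecMulVec w k) : Prl u u' ∨ Prl g g' := by
  by_contra hcon
  rw [not_or] at hcon
  obtain ⟨h1, h2⟩ := hcon
  unfold Prl at h1 h2
  push Not at h1 h2
  obtain ⟨a, c, h1⟩ := h1
  obtain ⟨b, d, h2⟩ := h2
  have e : ∀ i j, u i * g j + u' i * g' j = w i * k j := by
    intro i j
    have := congrFun (congrFun h i) j
    simpa [vecMulVec_apply] using this
  have h3 : (u a * u' c - u c * u' a) * (g b * g' d - g d * g' b) = 0 := by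
    have e1 := e a b
    have e2 := e c d
    have e3 := e a d
    have e4 := e c b
    have h4 : (u a * u' c - u c * u' a) * (g b * g' d - g d * g' b) =
        (u a * g b + u' a * g' b) * (u c * g d + u' c * g' d) -
          (u a * g d + u' a * g' d) * (u c * g b + u' c * g' b) := by ring
    rw [h4, e1, e2, e3, e4]
    ring
  rcases mul_eq_zero.1 h3 with h4 | h4
  · exact h1 (sub_eq_zero.1 h4)
  · exact h2 (sub_eq_zero.1 h4)

/-- A family of matrices of rank one such that all sums have rank one: all rows or all columns are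
proportional to one of them. -/
theorem family {I α β : Type*} {u : I → α → K} {g : I → β → K} (hu : ∀ i, u i ≠ 0) (hg : ∀ i, g i ≠ 0)
    (h : ∀ i j, i ≠ j → Prl (u i) (u j) ∨ Prl (g i) (g j)) (i₀ : I) :
    (∀ i, Prl (g i₀) (g i)) ∨ ∀ i, Prl (u i₀) (u i) := by
  have hh : ∀ i j, ¬ Prl (g i) (g j) → Prl (u i) (u j) := by
    intro i j hij
    rcases eq_or_ne i j with rfl | hne
    · exact absurd (fun a b => mul_comm _ _) hij
    · exact (h i j hne).resolve_right hij
  by_cases h1 : ∀ i, Prl (g i₀) (g i)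
  · exact Or.inl h1
  · right
    push Not at h1
    obtain ⟨i₁, h1⟩ := h1
    have h2 := hh i₀ i₁ h1
    intro j
    by_cases h3 : Prl (g i₀) (g j)
    · have h4 : ¬ Prl (g i₁) (g j) := fun h5 => h1 (h3.trans h5.symm (hg _) (hg _))
      exact h2.trans (hh i₁ j h4) (hu _) (hu _)
    · exact hh i₀ j h3

end

section
variable {κ κ' : Type*} [Fintype κ] [DecidableEq κ] [Fintype κ'] [DecidableEq κ'] {K : Type*} [Field K]

/-- The graph of an isomorphism between the Lie algebras of the matrices of trace zero. -/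
structure GN (𝓜 : Submodule K (Matrix κ κ K × Matrix κ' κ' K)) : Prop where
  lie : ∀ p ∈ 𝓜, ∀ q ∈ 𝓜, (p.1 * q.1 - q.1 * p.1, p.2 * q.2 - q.2 * p.2) ∈ 𝓜
  fst : ∀ X : Matrix κ κ K, X.trace = 0 ↔ ∃ X', (X, X') ∈ 𝓜
  snd : ∀ X' : Matrix κ' κ' K, X'.trace = 0 ↔ ∃ X, (X, X') ∈ 𝓜
  left : ∀ X, (X, (0 : Matrix κ' κ' K)) ∈ 𝓜 → X = 0
  right : ∀ X', ((0 : Matrix κ κ K), X') ∈ 𝓜 → X' = 0

variable {𝓜 : Submodule K (Matrix κ κ K × Matrix κ' κ' K)}

theorem GN.uniq (h : GN 𝓜) {X : Matrix κ κ K} {Y Y' : Matrix κ' κ' K} (h1 : (X, Y) ∈ 𝓜) (h2 : (X, Y') ∈ 𝓜) :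
    Y = Y' := by
  have h3 := 𝓜.sub_mem h1 h2
  rw [Prod.mk_sub_mk, sub_self] at h3
  exact sub_eq_zero.1 (h.right _ h3)

/-- The image of an extremal element is extremal. -/
theorem GN.ext [CharZero K] (h : GN 𝓜) {E : Matrix κ κ K} {N : Matrix κ' κ' K} (hEN : (E, N) ∈ 𝓜) (hE0 : E ≠ 0)
    (f : Matrix κ κ K → K) (hf : ∀ X, E * X * E = f X • E) (hEE : E * E = 0) {X₀ : Matrix κ κ K}
    (hX₀ : X₀.trace = 0) (hf0 : f X₀ ≠ 0) :
    N * N = 0 ∧ ∀ p ∈ 𝓜, N * p.2 * N = f p.1 • N := by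
  have hN0 : N ≠ 0 := by
    rintro rfl
    exact hE0 (h.left _ hEN)
  have key : ∀ p ∈ 𝓜, N * N * p.2 - (2 : K) • (N * p.2 * N) + p.2 * (N * N) = (-2 * f p.1) • N := by
    rintro ⟨X, Y⟩ hp
    have h1 := h.lie _ hEN _ (h.lie _ hEN _ hp)
    have h2 := 𝓜.smul_mem (-2 * f X) hEN
    rw [Prod.smul_mk] at h2
    have e1 : E * (E * X - X * E) - (E * X - X * E) * E = (-2 * f X) • E := by
      have : E * (E * X - X * E) - (E * X - X * E) * E = E * E * X - (2 : K) • (E * X * E) + X * (E * E) := by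
        rw [two_smul]
        noncomm_ring
      rw [this, hEE, hf, zero_mul, mul_zero, smul_smul]
      module
    change (E * (E * X - X * E) - (E * X - X * E) * E, N * (N * Y - Y * N) - (N * Y - Y * N) * N) ∈ 𝓜 at h1
    rw [e1] at h1
    have h3 := h.uniq h1 h2
    rw [← h3]
    change N * N * Y - (2 : K) • (N * Y * N) + Y * (N * N) = _
    rw [two_smul]
    noncomm_ring
  -- all matrices
  have hall : ∀ Y : Matrix κ' κ' K, ∃ c : K, N * N * Y - (2 : K) • (N * Y * N) + Y * (N * N) = c • N := by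
    intro Y
    rcases isEmpty_or_nonempty κ' with hemp | hne
    · exact ⟨0, by ext i; exact hemp.elim i⟩
    have hcard : (Fintype.card κ' : K) ≠ 0 := by exact_mod_cast Fintype.card_ne_zero
    obtain ⟨t, ht⟩ : ∃ t : K, t = Y.trace / Fintype.card κ' := ⟨_, rfl⟩
    obtain ⟨X, hX⟩ := (h.snd (Y - t • 1)).1 (by
      rw [Matrix.trace_sub, Matrix.trace_smul, Matrix.trace_one, ht, smul_eq_mul]
      field_simp
      ring)
    refine ⟨-2 * f X, ?_⟩
    have h1 := key _ hX
    change N * N * (Y - t • 1) - (2 : K) • (N * (Y - t • 1) * N) + (Y - t • 1) * (N * N) = (-2 * f X) • N at h1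
    rw [← h1, mul_sub, mul_sub, sub_mul, sub_mul, mul_smul_comm, mul_smul_comm, smul_mul_assoc, smul_mul_assoc,
      one_mul, mul_one, mul_one]
    module
  obtain ⟨Y₀, hY₀⟩ := (h.fst X₀).1 hX₀
  have k0 := key _ hY₀
  change N * N * Y₀ - (2 : K) • (N * Y₀ * N) + Y₀ * (N * N) = (-2 * f X₀) • N at k0
  have hc0 : (-2 * f X₀) ≠ 0 := mul_ne_zero (by norm_num) hf0
  obtain ⟨c1, hc1⟩ := hall (N * Y₀)
  have k1 : (-2 * f X₀) • (N * N) = c1 • N := by
    rw [← hc1, ← mul_smul_comm, ← k0]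
    rw [mul_add, mul_sub, mul_smul_comm]
    noncomm_ring
  obtain ⟨a, ha⟩ : ∃ a : K, N * N = a • N := by
    refine ⟨(-2 * f X₀)⁻¹ * c1, ?_⟩
    rw [mul_smul, ← k1, smul_smul, inv_mul_cancel₀ hc0, one_smul]
  have ha0 : a = 0 := by
    by_contra ha0
    have hcomm : ∀ Y, N * Y = Y * N := by
      intro Y
      obtain ⟨c, hc⟩ := hall Y
      rw [ha, smul_mul_assoc, mul_smul_comm] at hc
      have l1 : a • (N * Y) - N * Y * N = c • N := by
        have h1 := congrArg (fun Z => N * Z) hc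
        change N * (a • (N * Y) - (2 : K) • (N * Y * N) + a • (Y * N)) = N * (c • N) at h1
        rw [mul_add, mul_sub, mul_smul_comm, mul_smul_comm, mul_smul_comm, mul_smul_comm, ← mul_assoc, ← mul_assoc,
          ← mul_assoc, ← mul_assoc, ha, smul_mul_assoc, smul_mul_assoc] at h1
        have h2 : a • (a • (N * Y) - N * Y * N) = a • (c • N) := by
          rw [smul_comm a c N, ← h1]
          module
        exact smul_right_injective _ ha0 h2
      have l2 : a • (Y * N) - N * Y * N = c • N := by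
        have h1 := congrArg (fun Z => Z * N) hc
        change (a • (N * Y) - (2 : K) • (N * Y * N) + a • (Y * N)) * N = (c • N) * N at h1
        rw [add_mul, sub_mul, smul_mul_assoc, smul_mul_assoc, smul_mul_assoc, smul_mul_assoc, mul_assoc (N * Y) N N,
          mul_assoc Y N N, ha, mul_smul_comm, mul_smul_comm] at h1
        have h2 : a • (a • (Y * N) - N * Y * N) = a • (c • N) := by
          rw [smul_comm a c N, ← h1]
          module
        exact smul_right_injective _ ha0 h2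
      have l3 : a • (N * Y) = a • (Y * N) := by
        have := l1.trans l2.symm
        exact sub_left_inj.1 this
      exact smul_right_injective _ ha0 l3
    obtain ⟨t, ht⟩ := scal_of_comm hcomm
    have htr := (h.snd N).2 ⟨E, hEN⟩
    rw [ht, Matrix.trace_smul, Matrix.trace_one, smul_eq_mul] at htr
    rcases isEmpty_or_nonempty κ' with hemp | hne
    · exact hN0 (by ext i; exact hemp.elim i)
    rcases mul_eq_zero.1 htr with h1 | h1
    · rw [h1, zero_smul] at ht
      exact hN0 ht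
    · have hcard : (Fintype.card κ' : K) ≠ 0 := by exact_mod_cast Fintype.card_ne_zero
      exact hcard h1
  rw [ha0, zero_smul] at ha
  refine ⟨ha, fun p hp => ?_⟩
  have h1 := key p hp
  rw [ha, zero_mul, mul_zero, add_zero, zero_sub, mul_smul, neg_smul, neg_inj] at h1
  exact smul_right_injective _ (show (2 : K) ≠ 0 by norm_num) h1

/-- The image of an extremal element has rank one. -/
theorem GN.rk [CharZero K] (h : GN 𝓜) {E : Matrix κ κ K} {N : Matrix κ' κ' K} (hEN : (E, N) ∈ 𝓜) (hE0 : E ≠ 0)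
    (f : Matrix κ κ K → K) (hf : ∀ X, E * X * E = f X • E) (hEE : E * E = 0) {X₀ : Matrix κ κ K}
    (hX₀ : X₀.trace = 0) (hf0 : f X₀ ≠ 0) : ∃ u g : κ' → K, N = vecMulVec u g := by
  obtain ⟨h1, h2⟩ := h.ext hEN hE0 f hf hEE hX₀ hf0
  have hN0 : N ≠ 0 := by
    rintro rfl
    exact hE0 (h.left _ hEN)
  refine rank_one hN0 fun Y => ?_
  rcases isEmpty_or_nonempty κ' with hemp | hne
  · exact ⟨0, by ext i; exact hemp.elim i⟩
  have hcard : (Fintype.card κ' : K) ≠ 0 := by exact_mod_cast Fintype.card_ne_zero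
  obtain ⟨t, ht⟩ : ∃ t : K, t = Y.trace / Fintype.card κ' := ⟨_, rfl⟩
  obtain ⟨X, hX⟩ := (h.snd (Y - t • 1)).1 (by
    rw [Matrix.trace_sub, Matrix.trace_smul, Matrix.trace_one, ht, smul_eq_mul]
    field_simp
    ring)
  refine ⟨f X, ?_⟩
  rw [← h2 _ hX]
  change N * Y * N = N * (Y - t • 1) * N
  rw [mul_sub, sub_mul, mul_smul_comm, mul_one, smul_mul_assoc, h1, smul_zero, sub_zero]

theorem mul_sing {α : Type*} (T : Matrix α κ K) (i j : κ) :
    T * Matrix.single i j (1 : K) = vecMulVec (fun a => T a i) (Pi.single j 1) := by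
  ext a b
  rw [vecMulVec_apply, Matrix.mul_apply, Finset.sum_eq_single i]
  · rcases eq_or_ne j b with rfl | h
    · rw [Matrix.single_apply_same, Pi.single_eq_same]
    · rw [Matrix.single_apply_of_col_ne _ _ h, Pi.single_eq_of_ne h.symm]
  · intro c _ hc
    rw [Matrix.single_apply_of_row_ne hc.symm, mul_zero]
  · intro h
    exact absurd (Finset.mem_univ _) h

theorem sing_mul {α : Type*} (S : Matrix κ α K) (i j : κ) :
    Matrix.single i j (1 : K) * S = vecMulVec (Pi.single i 1) (S j) := by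
  ext a b
  rw [vecMulVec_apply, Matrix.mul_apply, Finset.sum_eq_single j]
  · rcases eq_or_ne i a with rfl | h
    · rw [Matrix.single_apply_same, Pi.single_eq_same]
    · rw [Matrix.single_apply_of_row_ne h, Pi.single_eq_of_ne h.symm]
  · intro c _ hc
    rw [Matrix.single_apply_of_col_ne _ _ hc.symm, zero_mul]
  · intro h
    exact absurd (Finset.mem_univ _) h

theorem vv_mul {α β γ : Type*} [Fintype β] (a : α → K) (b c : β → K) (d : γ → K) :
    vecMulVec a b * vecMulVec c d = (b ⬝ᵥ c) • vecMulVec a d := by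
  rw [Matrix.vecMulVec_mul_vecMulVec]
  ext i j
  simp only [vecMulVec_apply, Pi.smul_apply, Matrix.smul_apply, smul_eq_mul]
  ring

theorem vv_ne {α β : Type*} {a : α → K} {b : β → K} (h : vecMulVec a b ≠ 0) : a ≠ 0 ∧ b ≠ 0 := by
  constructor
  · rintro rfl
    apply h
    ext i j
    simp [vecMulVec_apply]
  · rintro rfl
    apply h
    ext i j
    simp [vecMulVec_apply]

theorem sing_ne (i j : κ) : Matrix.single i j (1 : K) ≠ 0 := by
  intro h
  have h1 := congrFun (congrFun h i) j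
  rw [Matrix.single_apply_same] at h1
  exact one_ne_zero h1

theorem sing_trace {i j : κ} (h : i ≠ j) : (Matrix.single i j (1 : K)).trace = 0 :=
  Matrix.trace_single_eq_of_ne _ _ _ h

/-- The images of the elements of the first column and of the first row. -/
theorem GN.col [CharZero K] (h : GN 𝓜) {i k₀ : κ} (hi : i ≠ k₀) {N : Matrix κ' κ' K}
    (hN : (Matrix.single i k₀ (1 : K), N) ∈ 𝓜) :
    N ≠ 0 ∧ N * N = 0 ∧ (∀ p ∈ 𝓜, N * p.2 * N = p.1 k₀ i • N) ∧ ∃ u g : κ' → K, N = vecMulVec u g := by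
  have hf : ∀ X : Matrix κ κ K, Matrix.single i k₀ 1 * X * Matrix.single i k₀ 1 =
      X k₀ i • Matrix.single i k₀ (1 : K) := by
    intro X
    rw [Matrix.single_mul_mul_single, one_mul, mul_one, Matrix.smul_single, smul_eq_mul, mul_one]
  have hEE : Matrix.single i k₀ (1 : K) * Matrix.single i k₀ 1 = 0 :=
    Matrix.single_mul_single_of_ne _ _ _ _ hi.symm _
  have h0 : (Matrix.single k₀ i (1 : K)) k₀ i ≠ 0 := by
    rw [Matrix.single_apply_same]
    exact one_ne_zero
  obtain ⟨h1, h2⟩ := h.ext hN (sing_ne _ _) (fun X => X k₀ i) hf hEE (sing_trace hi.symm) h0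
  refine ⟨?_, h1, h2, h.rk hN (sing_ne _ _) (fun X => X k₀ i) hf hEE (sing_trace hi.symm) h0⟩
  rintro rfl
  exact sing_ne _ _ (h.left _ hN)

theorem GN.col_sum [CharZero K] (h : GN 𝓜) {i j k₀ : κ} (hi : i ≠ k₀) (hj : j ≠ k₀) (hij : i ≠ j)
    {N N' : Matrix κ' κ' K} (hN : (Matrix.single i k₀ (1 : K), N) ∈ 𝓜) (hN' : (Matrix.single j k₀ (1 : K), N') ∈ 𝓜) :
    ∃ u g : κ' → K, N + N' = vecMulVec u g := by
  have hmem : (Matrix.single i k₀ (1 : K) + Matrix.single j k₀ 1, N + N') ∈ 𝓜 := 𝓜.add_mem hN hN'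
  refine h.rk hmem ?_ (fun X => X k₀ i + X k₀ j) ?_ ?_ (X₀ := Matrix.single k₀ i 1) (sing_trace hi.symm) ?_
  · intro h0
    have h1 := congrFun (congrFun h0 i) k₀
    rw [Matrix.add_apply, Matrix.single_apply_same, Matrix.single_apply_of_row_ne hij.symm, add_zero] at h1
    exact one_ne_zero h1
  · intro X
    have e1 : ∀ a b : κ, Matrix.single a k₀ (1 : K) * X * Matrix.single b k₀ 1 = X k₀ b • Matrix.single a k₀ (1 : K) := by
      intro a b
      rw [Matrix.single_mul_mul_single, one_mul, mul_one, Matrix.smul_single, smul_eq_mul, mul_one]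
    rw [add_mul, add_mul, mul_add, mul_add, e1, e1, e1, e1]
    module
  · have e1 : ∀ a b : κ, b ≠ k₀ → Matrix.single a k₀ (1 : K) * Matrix.single b k₀ 1 = 0 := by
      intro a b hb
      exact Matrix.single_mul_single_of_ne _ _ _ _ hb.symm _
    rw [add_mul, mul_add, mul_add, e1 _ _ hi, e1 _ _ hj, e1 _ _ hi, e1 _ _ hj]
    simp
  · rw [Matrix.single_apply_same, Matrix.single_apply_of_col_ne _ _ hij, add_zero]
    exact one_ne_zero

/-- The pairs with the negative transposed first matrix. -/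
def ntr (𝓜 : Submodule K (Matrix κ κ K × Matrix κ' κ' K)) : Submodule K (Matrix κ κ K × Matrix κ' κ' K) where
  carrier := {p | (-p.1ᵀ, p.2) ∈ 𝓜}
  add_mem' := by
    intro p q hp hq
    have h1 := 𝓜.add_mem hp hq
    change (-(p.1 + q.1)ᵀ, p.2 + q.2) ∈ 𝓜
    rw [Prod.mk_add_mk] at h1
    rw [Matrix.transpose_add, neg_add]
    exact h1
  zero_mem' := by
    change (-(0 : Matrix κ κ K)ᵀ, (0 : Matrix κ' κ' K)) ∈ 𝓜
    rw [Matrix.transpose_zero, neg_zero]
    exact 𝓜.zero_mem
  smul_mem' := by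
    intro c p hp
    have h1 := 𝓜.smul_mem c hp
    change (-(c • p.1)ᵀ, c • p.2) ∈ 𝓜
    rw [Matrix.transpose_smul, ← smul_neg]
    exact h1

theorem mem_tr {X : Matrix κ κ K} {Y : Matrix κ' κ' K} : (X, Y) ∈ ntr 𝓜 ↔ (-Xᵀ, Y) ∈ 𝓜 := Iff.rfl

theorem GN.tr (h : GN 𝓜) : GN (ntr 𝓜) where
  lie := by
    rintro ⟨X, X'⟩ hp ⟨Y, Y'⟩ hq
    rw [mem_tr] at hp hq
    change (-(X * Y - Y * X)ᵀ, X' * Y' - Y' * X') ∈ 𝓜
    have h1 := h.lie _ hp _ hq
    have e : (-Xᵀ) * (-Yᵀ) - (-Yᵀ) * (-Xᵀ) = -(X * Y - Y * X)ᵀ := by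
      rw [Matrix.transpose_sub, Matrix.transpose_mul, Matrix.transpose_mul, neg_mul_neg, neg_mul_neg, neg_sub]
    rw [← e]
    exact h1
  fst := by
    intro X
    rw [show X.trace = 0 ↔ (-Xᵀ).trace = 0 by rw [Matrix.trace_neg, Matrix.trace_transpose, neg_eq_zero], h.fst]
    rfl
  snd := by
    intro X'
    rw [h.snd]
    constructor
    · rintro ⟨X, hX⟩
      refine ⟨-Xᵀ, ?_⟩
      rw [mem_tr, Matrix.transpose_neg, Matrix.transpose_transpose, neg_neg]
      exact hX
    · rintro ⟨X, hX⟩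
      exact ⟨_, hX⟩
  left := by
    intro X hX
    rw [mem_tr] at hX
    have h1 := h.left _ hX
    rw [neg_eq_zero, Matrix.transpose_eq_zero] at h1
    exact h1
  right := by
    intro X' hX
    rw [mem_tr, Matrix.transpose_zero, neg_zero] at hX
    exact h.right _ hX

theorem row {i k₀ : κ} {M : Matrix κ' κ' K}
    (hM : (Matrix.single k₀ i (1 : K), M) ∈ 𝓜) :
    (Matrix.single i k₀ (1 : K), -M) ∈ ntr 𝓜 := by
  rw [mem_tr, Matrix.transpose_single]
  have := 𝓜.neg_mem hM
  exact this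

/-- The relation between the images of the first column and of the first row. -/
theorem GN.rel [CharZero K] (h : GN 𝓜) {i j k₀ : κ} (hi : i ≠ k₀) {a b c d : κ' → K}
    (hN : (Matrix.single i k₀ (1 : K), vecMulVec a b) ∈ 𝓜) (hM : (Matrix.single k₀ j (1 : K), vecMulVec c d) ∈ 𝓜) :
    (b ⬝ᵥ c) * (d ⬝ᵥ a) = if i = j then 1 else 0 := by
  obtain ⟨h0, -, h1, -⟩ := h.col hi hN
  have h2 := h1 _ hM
  change vecMulVec a b * vecMulVec c d * vecMulVec a b = (Matrix.single k₀ j (1 : K)) k₀ i • vecMulVec a b at h2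
  rw [vv_mul, smul_mul_assoc, vv_mul, smul_smul] at h2
  have h3 := sub_eq_zero.2 h2
  rw [← sub_smul] at h3
  have h4 := sub_eq_zero.1 ((smul_eq_zero.1 h3).resolve_right h0)
  rw [h4]
  rcases eq_or_ne i j with rfl | hij
  · rw [Matrix.single_apply_same, if_pos rfl]
  · rw [Matrix.single_apply_of_col_ne _ _ hij.symm, if_neg hij]

/-- The direct case: the images of the elements of the first column have a common row, the images of the
elements of the first row have a common column. -/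
theorem GN.direct [CharZero K] (h : GN 𝓜) {k₀ : κ} {u' g' : κ → κ' → K} {u g : κ' → K}
    (hN : ∀ i, i ≠ k₀ → (Matrix.single i k₀ (1 : K), vecMulVec (u' i) g) ∈ 𝓜)
    (hM : ∀ j, j ≠ k₀ → (Matrix.single k₀ j (1 : K), vecMulVec u (g' j)) ∈ 𝓜) (hex : ∃ i, i ≠ k₀) :
    ∃ (T : Matrix κ' κ K) (S : Matrix κ κ' K), T * S = 1 ∧ S * T = 1 ∧ ∀ p ∈ 𝓜, T * p.1 = p.2 * T := by
  -- the relations
  have r1 : ∀ i, i ≠ k₀ → g ⬝ᵥ u' i = 0 := by
    intro i hi
    obtain ⟨h0, h1, -, -⟩ := h.col hi (hN i hi)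
    rw [vv_mul] at h1
    exact (smul_eq_zero.1 h1).resolve_right h0
  have r2 : ∀ j, j ≠ k₀ → g' j ⬝ᵥ u = 0 := by
    intro j hj
    obtain ⟨h0, h1, -, -⟩ := h.tr.col hj (row (hM j hj))
    rw [neg_mul_neg, vv_mul] at h1
    exact (smul_eq_zero.1 h1).resolve_right (neg_ne_zero.1 h0)
  have r3 : ∀ i j, i ≠ k₀ → j ≠ k₀ → (g ⬝ᵥ u) * (g' j ⬝ᵥ u' i) = if i = j then 1 else 0 :=
    fun i j hi hj => h.rel hi (hN i hi) (hM j hj)
  obtain ⟨i₀, hi₀⟩ := hex
  obtain ⟨c, hc⟩ : ∃ c, c = g ⬝ᵥ u := ⟨_, rfl⟩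
  have hc0 : c ≠ 0 := by
    intro h0
    have h1 := r3 i₀ i₀ hi₀ hi₀
    rw [← hc, h0, zero_mul, if_pos rfl] at h1
    exact zero_ne_one h1
  rw [← hc] at r3
  obtain ⟨T, hT⟩ : ∃ T : Matrix κ' κ K, T = Matrix.of fun a k => if k = k₀ then c⁻¹ * u a else u' k a := ⟨_, rfl⟩
  obtain ⟨S, hS⟩ : ∃ S : Matrix κ κ' K, S = Matrix.of fun k a => if k = k₀ then g a else c * g' k a := ⟨_, rfl⟩
  have T0 : (fun a => T a k₀) = c⁻¹ • u := by
    funext a
    rw [hT, Matrix.of_apply, if_pos rfl, Pi.smul_apply, smul_eq_mul]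
  have T1 : ∀ k, k ≠ k₀ → (fun a => T a k) = u' k := by
    intro k hk
    funext a
    rw [hT, Matrix.of_apply, if_neg hk]
  have S0 : S k₀ = g := by
    funext a
    rw [hS, Matrix.of_apply, if_pos rfl]
  have S1 : ∀ k, k ≠ k₀ → S k = c • g' k := by
    intro k hk
    funext a
    rw [hS, Matrix.of_apply, if_neg hk, Pi.smul_apply, smul_eq_mul]
  have hST : S * T = 1 := by
    ext k l
    have e : (S * T) k l = S k ⬝ᵥ fun a => T a l := rfl
    rw [e]
    rcases eq_or_ne k k₀ with rfl | hk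
    · rcases eq_or_ne l k with rfl | hl
      · rw [S0, T0, dotProduct_smul, ← hc, smul_eq_mul, inv_mul_cancel₀ hc0, Matrix.one_apply_eq]
      · rw [S0, T1 l hl, r1 l hl, Matrix.one_apply_ne hl.symm]
    · rcases eq_or_ne l k₀ with rfl | hl
      · rw [S1 k hk, T0, smul_dotProduct, dotProduct_smul, r2 k hk, smul_zero, smul_zero, Matrix.one_apply_ne hk]
      · rw [S1 k hk, T1 l hl, smul_dotProduct, smul_eq_mul, r3 l k hl hk, Matrix.one_apply]
        rcases eq_or_ne l k with rfl | hlk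
        · rw [if_pos rfl]
        · rw [if_neg hlk, if_neg hlk.symm]
  have eST : ∀ k l, S k ⬝ᵥ (fun a => T a l) = (1 : Matrix κ κ K) k l := by
    intro k l
    rw [← hST]
    rfl
  -- the intertwining pairs
  let Q : Submodule K (Matrix κ κ K) :=
    { carrier := {X | ∃ X', (X, X') ∈ 𝓜 ∧ T * X = X' * T ∧ S * X' = X * S}
      add_mem' := by
        rintro X Y ⟨X', h1, h2, h3⟩ ⟨Y', h4, h5, h6⟩
        refine ⟨X' + Y', 𝓜.add_mem h1 h4, ?_, ?_⟩
        · rw [Matrix.mul_add, Matrix.add_mul, h2, h5]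
        · rw [Matrix.mul_add, Matrix.add_mul, h3, h6]
      zero_mem' := ⟨0, 𝓜.zero_mem, by rw [Matrix.mul_zero, Matrix.zero_mul], by rw [Matrix.mul_zero, Matrix.zero_mul]⟩
      smul_mem' := by
        rintro a X ⟨X', h1, h2, h3⟩
        refine ⟨a • X', 𝓜.smul_mem a h1, ?_, ?_⟩
        · rw [Matrix.mul_smul, Matrix.smul_mul, h2]
        · rw [Matrix.mul_smul, Matrix.smul_mul, h3] }
  have hQ : ∀ X, X ∈ Q ↔ ∃ X', (X, X') ∈ 𝓜 ∧ T * X = X' * T ∧ S * X' = X * S := fun X => Iff.rfl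
  have hQb : ∀ X ∈ Q, ∀ Y ∈ Q, X * Y - Y * X ∈ Q := by
    rintro X ⟨X', h1, h2, h3⟩ Y ⟨Y', h4, h5, h6⟩
    refine ⟨X' * Y' - Y' * X', h.lie _ h1 _ h4, ?_, ?_⟩
    · rw [Matrix.mul_sub, Matrix.sub_mul, ← Matrix.mul_assoc, ← Matrix.mul_assoc, h2, h5, Matrix.mul_assoc, h5,
        Matrix.mul_assoc Y', h2, Matrix.mul_assoc, Matrix.mul_assoc]
    · rw [Matrix.mul_sub, Matrix.sub_mul, ← Matrix.mul_assoc, ← Matrix.mul_assoc, h3, h6, Matrix.mul_assoc, h6,
        Matrix.mul_assoc Y, h3, Matrix.mul_assoc, Matrix.mul_assoc]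
  have hTv : ∀ (w : κ' → K) (k : κ), (w ᵥ* T) k = w ⬝ᵥ fun a => T a k := fun w k => rfl
  have hSv : ∀ (w : κ' → K) (k : κ), (S *ᵥ w) k = S k ⬝ᵥ w := fun w k => rfl
  have hQN : ∀ i, i ≠ k₀ → Matrix.single i k₀ (1 : K) ∈ Q := by
    intro i hi
    refine ⟨_, hN i hi, ?_, ?_⟩
    · rw [mul_sing, Matrix.vecMulVec_mul, T1 i hi]
      congr 1
      funext k
      rw [hTv, ← S0, eST, Pi.single_apply, Matrix.one_apply]
      simp only [eq_comm]
    · rw [sing_mul, Matrix.mul_vecMulVec, S0]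
      congr 1
      funext k
      rw [hSv, ← T1 i hi, eST, Pi.single_apply, Matrix.one_apply]
  have hQM : ∀ j, j ≠ k₀ → Matrix.single k₀ j (1 : K) ∈ Q := by
    intro j hj
    have hg : g' j = c⁻¹ • S j := by rw [S1 j hj, smul_smul, inv_mul_cancel₀ hc0, one_smul]
    have hu : u = c • fun a => T a k₀ := by rw [T0, smul_smul, mul_inv_cancel₀ hc0, one_smul]
    refine ⟨_, hM j hj, ?_, ?_⟩
    · rw [mul_sing, Matrix.vecMulVec_mul, T0]
      ext a k
      rw [vecMulVec_apply, vecMulVec_apply, hTv, hg, smul_dotProduct, eST, Pi.smul_apply, smul_eq_mul, smul_eq_mul,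
        Pi.single_apply, Matrix.one_apply]
      rcases eq_or_ne k j with rfl | hkj
      · rw [if_pos rfl]
        ring
      · rw [if_neg hkj, if_neg hkj.symm]
        ring
    · rw [sing_mul, Matrix.mul_vecMulVec, S1 j hj]
      ext k a
      rw [vecMulVec_apply, vecMulVec_apply, hSv, hu, dotProduct_smul, eST, Pi.smul_apply, smul_eq_mul, smul_eq_mul,
        Pi.single_apply, Matrix.one_apply]
      rcases eq_or_ne k k₀ with rfl | hkj
      · rw [if_pos rfl]
        ring
      · rw [if_neg hkj]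
        ring
  have hQB : ∀ i j, Matrix.single i j (1 : K) - (if i = j then Matrix.single k₀ k₀ (1 : K) else 0) ∈ Q := by
    intro i j
    rcases eq_or_ne i k₀ with rfl | hi
    · rcases eq_or_ne j i with rfl | hj
      · rw [if_pos rfl, sub_self]
        exact Q.zero_mem
      · rw [if_neg hj.symm, sub_zero]
        exact hQM j hj
    · rcases eq_or_ne j k₀ with rfl | hj
      · rw [if_neg hi, sub_zero]
        exact hQN i hi
      · have h1 := hQb _ (hQN i hi) _ (hQM j hj)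
        rw [Matrix.single_mul_single_same, mul_one] at h1
        rcases eq_or_ne i j with rfl | hij
        · rw [Matrix.single_mul_single_same, mul_one] at h1
          rw [if_pos rfl]
          exact h1
        · rw [Matrix.single_mul_single_of_ne _ _ _ _ hij.symm] at h1
          rw [if_neg hij]
          exact h1
  have hQall : ∀ X : Matrix κ κ K, X.trace = 0 → X ∈ Q := by
    intro X hX
    have e : X = ∑ i, ∑ j, X i j • (Matrix.single i j (1 : K) - (if i = j then Matrix.single k₀ k₀ (1 : K) else 0)) := by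
      have e1 : ∑ i, ∑ j, X i j • (Matrix.single i j (1 : K) - (if i = j then Matrix.single k₀ k₀ (1 : K) else 0)) =
          (∑ i, ∑ j, X i j • Matrix.single i j (1 : K)) - X.trace • Matrix.single k₀ k₀ (1 : K) := by
        rw [Matrix.trace, Finset.sum_smul, ← Finset.sum_sub_distrib]
        refine Finset.sum_congr rfl fun i _ => ?_
        rw [Finset.sum_congr rfl fun j _ => smul_sub (X i j) (Matrix.single i j (1 : K))
          (if i = j then Matrix.single k₀ k₀ (1 : K) else 0), Finset.sum_sub_distrib]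
        congr 1
        rw [Finset.sum_eq_single i]
        · rw [if_pos rfl, Matrix.diag_apply]
        · intro j _ hj
          rw [if_neg hj.symm, smul_zero]
        · intro hi
          exact absurd (Finset.mem_univ _) hi
      rw [e1, hX, zero_smul, sub_zero]
      conv_lhs => rw [Matrix.matrix_eq_sum_single X]
      refine Finset.sum_congr rfl fun i _ => Finset.sum_congr rfl fun j _ => ?_
      rw [Matrix.smul_single, smul_eq_mul, mul_one]
    rw [e]
    exact Q.sum_mem fun i _ => Q.sum_mem fun j _ => Q.smul_mem _ (hQB i j)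
  have hall : ∀ p ∈ 𝓜, T * p.1 = p.2 * T ∧ S * p.2 = p.1 * S := by
    rintro ⟨X, Y⟩ hp
    obtain ⟨X', h1, h2, h3⟩ := hQall X ((h.fst X).2 ⟨Y, hp⟩)
    obtain rfl := h.uniq hp h1
    exact ⟨h2, h3⟩
  refine ⟨T, S, ?_, hST, fun p hp => (hall p hp).1⟩
  -- `T * S` commutes with everything
  rcases isEmpty_or_nonempty κ' with hemp | hne
  · ext i
    exact hemp.elim i
  have hcard : (Fintype.card κ' : K) ≠ 0 := by exact_mod_cast Fintype.card_ne_zero
  have hcomm : ∀ Y, T * S * Y = Y * (T * S) := by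
    intro Y
    obtain ⟨t, ht⟩ : ∃ t : K, t = Y.trace / Fintype.card κ' := ⟨_, rfl⟩
    obtain ⟨X, hX⟩ := (h.snd (Y - t • 1)).1 (by
      rw [Matrix.trace_sub, Matrix.trace_smul, Matrix.trace_one, ht, smul_eq_mul]
      field_simp
      ring)
    obtain ⟨h1, h2⟩ := hall _ hX
    have h3 : T * S * (Y - t • 1) = (Y - t • 1) * (T * S) := by
      rw [Matrix.mul_assoc, h2, ← Matrix.mul_assoc, h1, Matrix.mul_assoc]
    rw [mul_sub, sub_mul, mul_smul_comm, smul_mul_assoc, mul_one, one_mul] at h3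
    exact sub_left_inj.1 h3
  obtain ⟨t, ht⟩ := scal_of_comm hcomm
  have h1 : (T * S) * (T * S) = T * S := by
    rw [Matrix.mul_assoc, ← Matrix.mul_assoc S T S, hST, Matrix.one_mul]
  rw [ht, smul_mul_smul_comm, one_mul] at h1
  have h2 : t ≠ 0 := by
    rintro rfl
    rw [zero_smul] at ht
    have h3 : S * (T * S) * T = (1 : Matrix κ κ K) := by
      rw [← Matrix.mul_assoc, hST, Matrix.one_mul, hST]
    rw [ht, Matrix.mul_zero, Matrix.zero_mul] at h3
    have h4 := congrFun (congrFun h3 k₀) k₀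
    rw [Matrix.one_apply_eq] at h4
    exact zero_ne_one h4
  have h3 : t * t = t := by
    obtain ⟨a⟩ := hne
    have h4 := congrFun (congrFun h1 a) a
    rw [Matrix.smul_apply, Matrix.smul_apply, Matrix.one_apply_eq, smul_eq_mul, smul_eq_mul, mul_one, mul_one] at h4
    exact h4
  have h4 : t = 1 := by
    have : t * (t - 1) = 0 := by rw [mul_sub, h3, mul_one, sub_self]
    exact sub_eq_zero.1 ((mul_eq_zero.1 this).resolve_left h2)
  rw [ht, h4, one_smul]

/-- The images of the elements of the first column have a common row or a common column. -/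
theorem GN.type [CharZero K] (h : GN 𝓜) {k₀ : κ} (hex : ∃ i, i ≠ k₀) :
    (∃ (u' : κ → κ' → K) (g : κ' → K), ∀ i, i ≠ k₀ → (Matrix.single i k₀ (1 : K), vecMulVec (u' i) g) ∈ 𝓜) ∨
    ∃ (u : κ' → K) (g' : κ → κ' → K), ∀ i, i ≠ k₀ → (Matrix.single i k₀ (1 : K), vecMulVec u (g' i)) ∈ 𝓜 := by
  have h1 : ∀ i : {i // i ≠ k₀}, ∃ u g : κ' → K, (Matrix.single i.1 k₀ (1 : K), vecMulVec u g) ∈ 𝓜 := by
    rintro ⟨i, hi⟩
    obtain ⟨N, hN⟩ := (h.fst _).1 (sing_trace (K := K) hi)
    obtain ⟨-, -, -, u, g, rfl⟩ := h.col hi hN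
    exact ⟨u, g, hN⟩
  choose u g hug using h1
  have hu : ∀ i, u i ≠ 0 := fun i => (vv_ne (h.col i.2 (hug i)).1).1
  have hg : ∀ i, g i ≠ 0 := fun i => (vv_ne (h.col i.2 (hug i)).1).2
  have hpr : ∀ i j, i ≠ j → Prl (u i) (u j) ∨ Prl (g i) (g j) := by
    intro i j hij
    obtain ⟨w, k, hw⟩ := h.col_sum i.2 j.2 (fun h0 => hij (Subtype.ext h0)) (hug i) (hug j)
    exact prl_of_sum hw
  obtain ⟨i₀, hi₀⟩ := hex
  rcases family hu hg hpr ⟨i₀, hi₀⟩ with h2 | h2
  · left
    have h3 : ∀ i, ∃ c : K, g i = c • g ⟨i₀, hi₀⟩ := fun i => (h2 i).smul (hg _)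
    choose c hc using h3
    refine ⟨fun i => if hi : i ≠ k₀ then c ⟨i, hi⟩ • u ⟨i, hi⟩ else 0, g ⟨i₀, hi₀⟩, fun i hi => ?_⟩
    beta_reduce
    rw [dif_pos hi]
    have h4 := hug ⟨i, hi⟩
    rw [hc ⟨i, hi⟩] at h4
    have e : vecMulVec (c ⟨i, hi⟩ • u ⟨i, hi⟩) (g ⟨i₀, hi₀⟩) = vecMulVec (u ⟨i, hi⟩) (c ⟨i, hi⟩ • g ⟨i₀, hi₀⟩) := by
      ext a b
      simp only [vecMulVec_apply, Pi.smul_apply, smul_eq_mul]
      ring
    rw [e]
    exact h4
  · right
    have h3 : ∀ i, ∃ c : K, u i = c • u ⟨i₀, hi₀⟩ := fun i => (h2 i).smul (hu _)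
    choose c hc using h3
    refine ⟨u ⟨i₀, hi₀⟩, fun i => if hi : i ≠ k₀ then c ⟨i, hi⟩ • g ⟨i, hi⟩ else 0, fun i hi => ?_⟩
    beta_reduce
    rw [dif_pos hi]
    have h4 := hug ⟨i, hi⟩
    rw [hc ⟨i, hi⟩] at h4
    have e : vecMulVec (u ⟨i₀, hi₀⟩) (c ⟨i, hi⟩ • g ⟨i, hi⟩) = vecMulVec (c ⟨i, hi⟩ • u ⟨i₀, hi₀⟩) (g ⟨i, hi⟩) := by
      ext a b
      simp only [vecMulVec_apply, Pi.smul_apply, smul_eq_mul]
      ring
    rw [e]
    exact h4

theorem row' {i k₀ : κ} {a b : κ' → K} (hM : (Matrix.single i k₀ (1 : K), vecMulVec a b) ∈ ntr 𝓜) :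
    (Matrix.single k₀ i (1 : K), vecMulVec (-a) b) ∈ 𝓜 := by
  rw [mem_tr, Matrix.transpose_single] at hM
  have h1 := 𝓜.neg_mem hM
  have e : -(vecMulVec a b) = vecMulVec (-a) b := by
    ext i j
    simp [vecMulVec_apply]
  rw [← e]
  rw [Prod.neg_mk, neg_neg] at h1
  exact h1

theorem row'' {i k₀ : κ} {a b : κ' → K} (hM : (Matrix.single i k₀ (1 : K), vecMulVec a b) ∈ 𝓜) :
    (Matrix.single k₀ i (1 : K), vecMulVec (-a) b) ∈ ntr 𝓜 := by
  rw [mem_tr, Matrix.transpose_single]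
  have h1 := 𝓜.neg_mem hM
  have e : -(vecMulVec a b) = vecMulVec (-a) b := by
    ext i j
    simp [vecMulVec_apply]
  rw [← e]
  exact h1

/-- **Isomorphisms between the Lie algebras of matrices of trace zero.** -/
theorem GN.iso [CharZero K] (h : GN 𝓜) (h2 : 2 ≤ Fintype.card κ) :
    (∃ (T : Matrix κ' κ K) (S : Matrix κ κ' K), T * S = 1 ∧ S * T = 1 ∧ ∀ p ∈ 𝓜, T * p.1 = p.2 * T) ∨
    ∃ (T : Matrix κ' κ K) (S : Matrix κ κ' K), T * S = 1 ∧ S * T = 1 ∧ ∀ p ∈ 𝓜, T * p.1ᵀ = -(p.2 * T) := by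
  classical
  obtain ⟨k₀, i₀, hi₀⟩ := Fintype.exists_pair_of_one_lt_card (show 1 < Fintype.card κ by omega)
  have hex : ∃ i, i ≠ k₀ := ⟨i₀, hi₀.symm⟩
  have hdir : (∃ (u' : κ → κ' → K) (g : κ' → K), ∀ i, i ≠ k₀ →
      (Matrix.single i k₀ (1 : K), vecMulVec (u' i) g) ∈ 𝓜) →
      (∃ (u : κ' → K) (g' : κ → κ' → K), ∀ i, i ≠ k₀ →
        (Matrix.single i k₀ (1 : K), vecMulVec u (g' i)) ∈ ntr 𝓜) →
      ∃ (T : Matrix κ' κ K) (S : Matrix κ κ' K), T * S = 1 ∧ S * T = 1 ∧ ∀ p ∈ 𝓜, T * p.1 = p.2 * T := by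
    rintro ⟨u', g, hN⟩ ⟨u, g', hM⟩
    exact h.direct hN (fun j hj => row' (hM j hj)) hex
  rcases h.type hex with hA | ⟨u, g', hB⟩
  · rcases h.tr.type hex with ⟨u'', g'', hC⟩ | hD
    · -- only one index
      obtain ⟨u', g, hN⟩ := hA
      left
      have huni : ∀ i j, i ≠ k₀ → j ≠ k₀ → i = j := by
        intro i j hi hj
        by_contra hij
        have a1 := h.rel hi (hN i hi) (row' (hC j hj))
        rw [if_neg hij] at a1
        have a2 := h.rel hi (hN i hi) (row' (hC i hi))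
        have a3 := h.rel hj (hN j hj) (row' (hC j hj))
        rw [if_pos rfl] at a2 a3
        rcases mul_eq_zero.1 a1 with a4 | a4
        · rw [a4, zero_mul] at a3
          exact zero_ne_one a3
        · rw [a4, mul_zero] at a2
          exact zero_ne_one a2
      refine hdir ⟨u', g, hN⟩ ⟨u'' i₀, fun _ => g'', fun i hi => ?_⟩
      rw [huni i i₀ hi hi₀.symm]
      exact hC i₀ hi₀.symm
    · exact Or.inl (hdir hA hD)
  · rcases h.tr.type hex with hC | ⟨u'', g'', hD⟩
    · right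
      obtain ⟨u', g, hC⟩ := hC
      obtain ⟨T, S, h3, h4, h5⟩ := h.tr.direct hC (fun j hj => row'' (hB j hj)) hex
      refine ⟨T, S, h3, h4, fun p hp => ?_⟩
      have h6 := h5 (-p.1ᵀ, p.2) (by
        rw [mem_tr, Matrix.transpose_neg, Matrix.transpose_transpose, neg_neg]
        exact hp)
      change T * (-p.1ᵀ) = p.2 * T at h6
      rw [← h6, Matrix.mul_neg, neg_neg]
    · left
      have huni : ∀ i j, i ≠ k₀ → j ≠ k₀ → i = j := by
        intro i j hi hj
        by_contra hij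
        have a1 := h.rel hi (hB i hi) (row' (hD j hj))
        rw [if_neg hij] at a1
        have a2 := h.rel hi (hB i hi) (row' (hD i hi))
        have a3 := h.rel hj (hB j hj) (row' (hD j hj))
        rw [if_pos rfl] at a2 a3
        rcases mul_eq_zero.1 a1 with a4 | a4
        · rw [a4, zero_mul] at a2
          exact zero_ne_one a2
        · rw [a4, mul_zero] at a3
          exact zero_ne_one a3
      refine hdir ⟨fun _ => u, g' i₀, fun i hi => ?_⟩ ⟨u'', g'', hD⟩
      rw [huni i i₀ hi hi₀.symm]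
      exact hB i₀ hi₀.symm

end

end Pool.Agent.H25W
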