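import Pool.Agent.Lib.H25W.NN
import Pool.Agent.Lib.H34Z.D0

/-!
# NP: a Lie algebra of pairs of operators which is the graph of an isomorphism between the Lie algebras of all
operators of trace zero
-/

set_option autoImplicit false
set_option linter.unusedSectionVars false
namespace Pool.Agent.H25W
open Module Matrix Pool.Agent.H53Toric

variable {κ κ' : Type*} [Fintype κ] [DecidableEq κ] [Fintype κ'] [DecidableEq κ'] {K : Type*} [Field K] [CharZero K]

/-- The pairs of matrices of the pairs of operators. -/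
noncomputable def mats (𝓛 : Submodule K (Module.End K (κ → K) × Module.End K (κ' → K))) :
    Submodule K (Matrix κ κ K × Matrix κ' κ' K) :=
  𝓛.comap (LinearMap.prodMap (phi (ι := κ) (K := K)).toLinearMap (phi (ι := κ') (K := K)).toLinearMap)

theorem mem_mats {𝓛 : Submodule K (Module.End K (κ → K) × Module.End K (κ' → K))} {A : Matrix κ κ K}
    {B : Matrix κ' κ' K} : (A, B) ∈ mats 𝓛 ↔ (phi A, phi B) ∈ 𝓛 := Iff.rfl

theorem trace_phi (A : Matrix κ κ K) : LinearMap.trace K (κ → K) (phi A) = A.trace := by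
  have h1 := Matrix.trace_toLin'_eq A
  exact h1

theorem gn_lie {𝓛 : Submodule K (Module.End K (κ → K) × Module.End K (κ' → K))}
    (lie : ∀ p ∈ 𝓛, ∀ q ∈ 𝓛, (p.1 * q.1 - q.1 * p.1, p.2 * q.2 - q.2 * p.2) ∈ 𝓛)
    {A B : Matrix κ κ K} {A' B' : Matrix κ' κ' K} (hp : (A, A') ∈ mats 𝓛) (hq : (B, B') ∈ mats 𝓛) :
    (A * B - B * A, A' * B' - B' * A') ∈ mats 𝓛 := by
  have h1 := lie (phi A, phi A') (mem_mats.1 hp) (phi B, phi B') (mem_mats.1 hq)
  refine mem_mats.2 ?_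
  have e1 : phi (A * B - B * A) = phi A * phi B - phi B * phi A := by
    rw [map_sub, map_mul, map_mul]
  have e2 : phi (A' * B' - B' * A') = phi A' * phi B' - phi B' * phi A' := by
    rw [map_sub, map_mul, map_mul]
  rw [e1, e2]
  exact h1

theorem gn_mats {𝓛 : Submodule K (Module.End K (κ → K) × Module.End K (κ' → K))}
    (lie : ∀ p ∈ 𝓛, ∀ q ∈ 𝓛, (p.1 * q.1 - q.1 * p.1, p.2 * q.2 - q.2 * p.2) ∈ 𝓛)
    (fst : ∀ X : Module.End K (κ → K), LinearMap.trace K (κ → K) X = 0 ↔ ∃ X', (X, X') ∈ 𝓛)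
    (snd : ∀ X' : Module.End K (κ' → K), LinearMap.trace K (κ' → K) X' = 0 ↔ ∃ X, (X, X') ∈ 𝓛)
    (left : ∀ X, (X, (0 : Module.End K (κ' → K))) ∈ 𝓛 → X = 0)
    (right : ∀ X', ((0 : Module.End K (κ → K)), X') ∈ 𝓛 → X' = 0) : GN (mats 𝓛) where
  lie := fun p hp q hq => gn_lie lie (A := p.1) (A' := p.2) (B := q.1) (B' := q.2) hp hq
  fst := by
    intro A
    rw [← trace_phi, fst]
    constructor
    · rintro ⟨X', hX⟩
      refine ⟨phi.symm X', mem_mats.2 ?_⟩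
      rw [AlgEquiv.apply_symm_apply]
      exact hX
    · rintro ⟨B, hB⟩
      exact ⟨_, mem_mats.1 hB⟩
  snd := by
    intro A
    rw [← trace_phi, snd]
    constructor
    · rintro ⟨X', hX⟩
      refine ⟨phi.symm X', mem_mats.2 ?_⟩
      rw [AlgEquiv.apply_symm_apply]
      exact hX
    · rintro ⟨B, hB⟩
      exact ⟨_, mem_mats.1 hB⟩
  left := by
    intro A hA
    have h1 := mem_mats.1 hA
    rw [map_zero] at h1
    exact (map_eq_zero_iff _ phi.injective).1 (left _ h1)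
  right := by
    intro A hA
    have h1 := mem_mats.1 hA
    rw [map_zero] at h1
    exact (map_eq_zero_iff _ phi.injective).1 (right _ h1)

theorem bij_of_inv {T : Matrix κ' κ K} {S : Matrix κ κ' K} (h1 : T * S = 1) (h2 : S * T = 1) :
    Function.Bijective (Matrix.mulVecLin T) := by
  constructor
  · intro v w hvw
    have h3 : S *ᵥ (T *ᵥ v) = S *ᵥ (T *ᵥ w) := congrArg (fun z => S *ᵥ z) hvw
    rwa [Matrix.mulVec_mulVec, Matrix.mulVec_mulVec, h2, Matrix.one_mulVec, Matrix.one_mulVec] at h3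
  · intro v
    refine ⟨S *ᵥ v, ?_⟩
    rw [Matrix.mulVecLin_apply, Matrix.mulVec_mulVec, h1, Matrix.one_mulVec]

/-- **The pair theory of the class without a form.** -/
theorem nn_pair {𝓛 : Submodule K (Module.End K (κ → K) × Module.End K (κ' → K))}
    (lie : ∀ p ∈ 𝓛, ∀ q ∈ 𝓛, (p.1 * q.1 - q.1 * p.1, p.2 * q.2 - q.2 * p.2) ∈ 𝓛)
    (fst : ∀ X : Module.End K (κ → K), LinearMap.trace K (κ → K) X = 0 ↔ ∃ X', (X, X') ∈ 𝓛)
    (snd : ∀ X' : Module.End K (κ' → K), LinearMap.trace K (κ' → K) X' = 0 ↔ ∃ X, (X, X') ∈ 𝓛)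
    (left : ∀ X, (X, (0 : Module.End K (κ' → K))) ∈ 𝓛 → X = 0)
    (right : ∀ X', ((0 : Module.End K (κ → K)), X') ∈ 𝓛 → X' = 0) (h2 : 2 ≤ Fintype.card κ) :
    (∃ T : (κ → K) →ₗ[K] (κ' → K), Function.Bijective T ∧ ∀ p ∈ 𝓛, ∀ v, T (p.1 v) = p.2 (T v)) ∨
    ∃ T : (κ → K) →ₗ[K] (κ' → K), Function.Bijective T ∧
      ∀ p ∈ 𝓛, ∀ v, T (adjE (1 : Matrix κ κ K) p.1 v) = -p.2 (T v) := by
  have hm := gn_mats lie fst snd left right
  have hp : ∀ p ∈ 𝓛, (phi.symm p.1, phi.symm p.2) ∈ mats 𝓛 := by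
    intro p hp
    rw [mem_mats, AlgEquiv.apply_symm_apply, AlgEquiv.apply_symm_apply]
    exact hp
  have hphi : ∀ (X : Module.End K (κ → K)) (v : κ → K), X v = phi.symm X *ᵥ v := by
    intro X v
    rw [← phi_apply, AlgEquiv.apply_symm_apply]
  have hphi' : ∀ (X : Module.End K (κ' → K)) (v : κ' → K), X v = phi.symm X *ᵥ v := by
    intro X v
    rw [← phi_apply, AlgEquiv.apply_symm_apply]
  rcases hm.iso h2 with ⟨T, S, h3, h4, h5⟩ | ⟨T, S, h3, h4, h5⟩
  · refine Or.inl ⟨Matrix.mulVecLin T, bij_of_inv h3 h4, fun p hp' v => ?_⟩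
    have h6 := h5 _ (hp p hp')
    rw [Matrix.mulVecLin_apply, Matrix.mulVecLin_apply, hphi p.1, hphi' p.2, Matrix.mulVec_mulVec,
      Matrix.mulVec_mulVec, h6]
  · refine Or.inr ⟨Matrix.mulVecLin T, bij_of_inv h3 h4, fun p hp' v => ?_⟩
    have h6 := h5 _ (hp p hp')
    change T * (phi.symm p.1)ᵀ = -(phi.symm p.2 * T) at h6
    have h7 : adjE (1 : Matrix κ κ K) p.1 = phi ((phi.symm p.1)ᵀ) := by
      conv_lhs => rw [← AlgEquiv.apply_symm_apply phi p.1]
      rw [adjE_phi, inv_one, one_mul, mul_one]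
    rw [h7, Matrix.mulVecLin_apply, Matrix.mulVecLin_apply, phi_apply, hphi' p.2, Matrix.mulVec_mulVec,
      Matrix.mulVec_mulVec, h6, Matrix.neg_mulVec]

end Pool.Agent.H25W
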