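import Pool.Agent.Lib.H25W.Hodge

/-!
# Pairs: multiplicative relations between the eigenvalues on two components
-/

set_option autoImplicit false
set_option linter.unusedSectionVars false
namespace Pool.Agent.H45U
open Pool.Agent.H76Y Pool.Agent.H76Z
open Pool.Agent.H76P Pool.Agent.H76V Pool.Agent.H76Q
open Module Matrix Polynomial Pool.Agent.H53Toric
open Pool.Agent.H76P
open Pool.Agent.H76T (IsIdeal Fam Lc)
open Pool.Agent.H76U (cmp preL IsSplitting)
open Pool.Agent.H76RM (spanK similD)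

variable {ι : Type*} [Fintype ι] [DecidableEq ι] {ψ : Matrix ι ι ℚ}
    {D : Subalgebra ℚ (Matrix ι ι ℚ)} {M : Type*} [Field M] [NumberField M]
    {m : ℕ} {cl : Fin m → Cl} {bar : Fin m → Fin m} {e : Fin m → Matrix ι ι M} {u₀ : Matrix ι ι M} {G : Type*} [Group G]
    {ρ : ∀ (l : ℕ) [Fact l.Prime], G →* Matrix.GeneralLinearGroup ι ℚ_[l]}
    {p : ℕ} [Fact p.Prime] {σ : G} {q : ℚ} {F : Fin m → M[X]}
    {φ μ ν : Matrix ι ι (AlgebraicClosure ℚ_[p])} {v : AlgebraicClosure ℚ_[p] → ℚ}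
    {Δ : Set (AlgebraicClosure ℚ_[p] ≃+* AlgebraicClosure ℚ_[p])}
    {Ω : Type*} [Field Ω] [CharZero Ω] [IsAlgClosed Ω] [Algebra.IsAlgebraic ℚ Ω] {j : M →+* Ω}
    {R : Finset Ω} {N : Set ℕ} {hd : Fin m → Ω → ℕ} {ub : Fin m → Prop}
    (C : Core5a ψ D cl bar e u₀ ρ p σ q F φ μ ν v Δ j R N hd ub)

include C

/-- The Hodge-Tate projector as a function of the eigenvalues of Frobenius. -/
theorem Core5a.tor_r {r : Ω} (hr : r ∈ R) :
    ∃ f : Ω → ℤ, (∀ (b : Fin m) {n : ℕ} {a : Fin n → Ω}, Function.Injective a →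
        (∀ y : Ω, (F b).eval₂ j y = 0 ↔ ∃ k, y = a k) →
        (∀ k, f (a k) = 0 ∨ f (a k) = 1) ∧ ∑ k, f (a k) = hd b r) ∧
      ∀ (I : Type) [Fintype I] (lam : I → Ω) (s : I → ℤ), (∀ x, ∃ b, (F b).eval₂ j (lam x) = 0) →
        ∏ x, lam x ^ s x = 1 → ∑ x, s x * f (lam x) = 0 := by
  classical
  obtain ⟨i, hi⟩ := C.w2_i hr
  obtain ⟨H, -, hfin, hprime⟩ := H76RM.exists_prime (K := AlgebraicClosure ℚ_[p]) (ρ p) ⊤ inferInstance
  have hne : Nonempty ι := by
    by_contra hemp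
    rw [not_nonempty_iff] at hemp
    exact C.crys.mu.2.1 (by ext i; exact (hemp.false i).elim)
  obtain ⟨x', g⟩ := mk_phT C.hψ C.hψ0 D (ρ p) (C.lin p) (C.sim p) (C.semis p) (C.commt p) (C.gen p)
      C.frobp hfin hprime
  have hμz : μ ∈ zlie {y | ∃ n : ℕ, y = φ ^ n} := g.torus μ (g.sh.hz μ C.crys.mu) C.crys.muphi
  obtain ⟨f₀, hf₀, hrel⟩ := H25W.tor_fun g.dgb C.frobp.idc.1 hμz
  have hμμ : μ * μ = μ := g.sh.hi μ C.crys.mu
  have hspl : Splits D ψ cl bar (fun c => (e c).map (i.comp j)) (u₀.map (i.comp j)) := C.hspl.map (i.comp j)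
  have hval : ∀ (c : AlgebraicClosure ℚ_[p]) (z : ι → AlgebraicClosure ℚ_[p]), z ≠ 0 → φ *ᵥ z = c • z →
      f₀ c = 0 ∨ f₀ c = 1 := by
    intro c z hz hcz
    have h1 := hf₀ c z hcz
    have h2 : (f₀ c * f₀ c) • z = f₀ c • z := by
      calc (f₀ c * f₀ c) • z = μ *ᵥ (μ *ᵥ z) := by rw [h1, Matrix.mulVec_smul, h1, smul_smul]
        _ = f₀ c • z := by rw [Matrix.mulVec_mulVec, hμμ, h1]
    have h3 : f₀ c * f₀ c - f₀ c = 0 := by
      have h4 : (f₀ c * f₀ c - f₀ c) • z = 0 := by rw [sub_smul, h2, sub_self]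
      exact (smul_eq_zero.1 h4).resolve_right hz
    have h5 : f₀ c * (f₀ c - 1) = 0 := by rw [mul_sub, mul_one, h3]
    rcases mul_eq_zero.1 h5 with h6 | h6
    · exact Or.inl h6
    · exact Or.inr (sub_eq_zero.1 h6)
  have hroot0 : ∀ (b : Fin m) (a : Ω), (F b).eval₂ j a = 0 →
      ∃ z : ι → AlgebraicClosure ℚ_[p], z ≠ 0 ∧ φ *ᵥ z = i a • z := by
    intro b a ha
    have h1 : (F b).eval₂ (i.comp j) (i a) = 0 := by
      rw [← Polynomial.hom_eval₂, ha, map_zero]
    obtain ⟨z, hz, -, hφ⟩ := (C.frobp.eig (i.comp j) b (i a)).2 h1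
    exact ⟨z, hz, hφ⟩
  obtain ⟨f, hf⟩ : ∃ f : Ω → ℤ, ∀ (b : Fin m) (a : Ω), (F b).eval₂ j a = 0 →
      ((f a : AlgebraicClosure ℚ_[p]) = f₀ (i a) ∧ (f a = 0 ∨ f a = 1)) := by
    refine ⟨fun y => if f₀ (i y) = 1 then 1 else 0, fun b a ha => ?_⟩
    obtain ⟨z, hz, hφz⟩ := hroot0 b a ha
    dsimp only
    rcases hval _ z hz hφz with h1 | h1
    · rw [h1, if_neg zero_ne_one]
      exact ⟨by simp, Or.inl rfl⟩
    · rw [h1, if_pos rfl]
      exact ⟨by simp, Or.inr rfl⟩
  refine ⟨f, fun b n a ha hroot => ⟨fun k => (hf b (a k) ((hroot _).2 ⟨k, rfl⟩)).2, ?_⟩, ?_⟩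
  · obtain ⟨H₀, U, V, -, hL, -⟩ := C.locp0 b ha hroot i
    have hμU : μ * U = U * Matrix.diagonal (fun k => f₀ (i (a k))) := by
      ext x k
      have h1 : φ *ᵥ (fun x => U x k) = i (a k) • (fun x => U x k) := by
        funext x
        have h3 := congrFun (congrFun hL.ec.eig x) k
        rw [Matrix.mul_diagonal] at h3
        rw [Pi.smul_apply, smul_eq_mul, mul_comm, ← h3]
        rfl
      have h2 := congrFun (hf₀ _ _ h1) x
      rw [Pi.smul_apply, smul_eq_mul] at h2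
      rw [Matrix.mul_diagonal, mul_comm (U x k), ← h2]
      rfl
    have hee : μ * (e b).map (i.comp j) * (μ * (e b).map (i.comp j)) = μ * (e b).map (i.comp j) := by
      have h2 := H25W.ph_comm g C.crys.mu (hspl.mem b)
      calc μ * (e b).map (i.comp j) * (μ * (e b).map (i.comp j))
          = μ * ((e b).map (i.comp j) * μ) * (e b).map (i.comp j) := by noncomm_ring
        _ = (μ * μ) * ((e b).map (i.comp j) * (e b).map (i.comp j)) := by rw [← h2]; noncomm_ring
        _ = μ * (e b).map (i.comp j) := by rw [hμμ, hspl.idem b]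
    have h1 : ((μ * (e b).map (i.comp j)).rank : AlgebraicClosure ℚ_[p]) = ∑ k, f₀ (i (a k)) := by
      rw [Pool.Agent.H76T.rank_eq_trace hee]
      have h3 : LinearMap.trace _ (ι → AlgebraicClosure ℚ_[p]) (phi (μ * (e b).map (i.comp j))) =
          (μ * (e b).map (i.comp j)).trace := Matrix.trace_toLin'_eq _
      have h4 : μ * (e b).map (i.comp j) = U * (Matrix.diagonal (fun k => f₀ (i (a k))) * V) := by
        rw [hL.UV, ← Matrix.mul_assoc, hμU, Matrix.mul_assoc]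
      rw [h3, h4, Matrix.trace_mul_comm, Matrix.mul_assoc, hL.VU, Matrix.mul_one, Matrix.trace_diagonal]
    rw [C.hdg b i r hr hi] at h1
    have h2 : ((∑ k, f (a k) : ℤ) : AlgebraicClosure ℚ_[p]) = ((hd b r : ℤ) : AlgebraicClosure ℚ_[p]) := by
      rw [Int.cast_sum, Int.cast_natCast, h1]
      exact Finset.sum_congr rfl fun k _ => (hf b (a k) ((hroot _).2 ⟨k, rfl⟩)).1
    exact_mod_cast h2
  · intro I _ lam s hlam hprod
    have h1 := hrel I (fun x => i (lam x)) s (fun x => by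
      obtain ⟨b, hb⟩ := hlam x
      exact hroot0 b _ hb) (by
        have h2 := congrArg i hprod
        rw [map_one, map_prod] at h2
        rw [← h2]
        exact Finset.prod_congr rfl fun x _ => by rw [map_zpow₀])
    have h3 : ((∑ x, s x * f (lam x) : ℤ) : AlgebraicClosure ℚ_[p]) = 0 := by
      rw [← h1, Int.cast_sum]
      refine Finset.sum_congr rfl fun x _ => ?_
      obtain ⟨b, hb⟩ := hlam x
      rw [Int.cast_mul, (hf b _ hb).1]
    exact_mod_cast h3

/-- If the eigenvalues on `c` are those on `b` multiplied by a constant then the multiplicities of the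
two components are equal, or `0` and `n`. -/
theorem Core5a.pair_dir {b c : Fin m} {n n' : ℕ} {a : Fin n → Ω} (ha : Function.Injective a)
    (hroot : ∀ y : Ω, (F b).eval₂ j y = 0 ↔ ∃ k, y = a k) {a' : Fin n' → Ω} (ha' : Function.Injective a')
    (hroot' : ∀ y : Ω, (F c).eval₂ j y = 0 ↔ ∃ k, y = a' k) (hnn : n' = n) (π : Fin n → Fin n')
    (hπ : ∀ k k', a' (π k) * a k' = a' (π k') * a k) {r : Ω} (hr : r ∈ R) :
    hd b r = hd c r ∨ (hd b r = 0 ∧ hd c r = n) ∨ (hd b r = n ∧ hd c r = 0) := by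
  classical
  obtain ⟨f, hf, hrel⟩ := C.tor_r hr
  have h0 : ∀ k, a k ≠ 0 := fun k => C.ne b hroot k
  have h0' : ∀ k, a' k ≠ 0 := fun k => C.ne c hroot' k
  obtain ⟨hf1, hf2⟩ := hf b ha hroot
  obtain ⟨hf1', hf2'⟩ := hf c ha' hroot'
  have hinj : Function.Injective π := by
    intro k k' hkk
    have h1 := hπ k k'
    rw [hkk] at h1
    exact (ha (mul_left_cancel₀ (h0' _) h1)).symm
  have hbij : Function.Bijective π := (Fintype.bijective_iff_injective_and_card π).2 ⟨hinj, by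
    rw [Fintype.card_fin, Fintype.card_fin, hnn]⟩
  have hsum : ∑ k, f (a' (π k)) = hd c r := by
    rw [← hf2']
    exact hbij.sum_comp fun k => f (a' k)
  have hconst : ∀ k k', f (a' (π k)) - f (a k) = f (a' (π k')) - f (a k') := by
    intro k k'
    have h1 := hrel (Fin 4) ![a' (π k), a k', a' (π k'), a k] ![1, 1, -1, -1] (by
      intro x
      fin_cases x
      · exact ⟨c, (hroot' _).2 ⟨_, rfl⟩⟩
      · exact ⟨b, (hroot _).2 ⟨_, rfl⟩⟩
      · exact ⟨c, (hroot' _).2 ⟨_, rfl⟩⟩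
      · exact ⟨b, (hroot _).2 ⟨_, rfl⟩⟩) (by
      have h3 := h0 k
      have h4 := h0' (π k')
      have h5 := hπ k k'
      simp [Fin.prod_univ_succ]
      field_simp
      exact h5)
    simp [Fin.sum_univ_succ] at h1
    linarith
  by_cases hn : n = 0
  · subst hn
    subst hnn
    have e1 : (hd b r : ℤ) = 0 := by rw [← hf2]; simp
    have e2 : (hd c r : ℤ) = 0 := by rw [← hf2']; simp
    left
    omega
  have k₀ : Fin n := ⟨0, Nat.pos_of_ne_zero hn⟩
  have h1 : (hd c r : ℤ) - hd b r = n * (f (a' (π k₀)) - f (a k₀)) := by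
    rw [← hsum, ← hf2, ← Finset.sum_sub_distrib, Finset.sum_congr rfl fun k _ => hconst k k₀, Finset.sum_const,
      Finset.card_univ, Fintype.card_fin, nsmul_eq_mul]
  have hle : ∀ (g : Fin n → ℤ), (∀ k, g k = 0 ∨ g k = 1) → 0 ≤ ∑ k, g k ∧ ∑ k, g k ≤ n := by
    intro g hg
    refine ⟨Finset.sum_nonneg fun k _ => by rcases hg k with h | h <;> omega, ?_⟩
    calc ∑ k, g k ≤ ∑ _k : Fin n, (1 : ℤ) := Finset.sum_le_sum fun k _ => by rcases hg k with h | h <;> omega
      _ = n := by simp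
  have h2 := hle (fun k => f (a k)) hf1
  have h3 := hle (fun k => f (a' (π k))) (fun k => hf1' _)
  rw [hf2] at h2
  rw [hsum] at h3
  rcases hf1 k₀ with h4 | h4 <;> rcases hf1' (π k₀) with h5 | h5 <;> rw [h4, h5] at h1
  · left; omega
  · right; left; omega
  · right; right; omega
  · left; omega

/-- The dual statement. -/
theorem Core5a.pair_dual {b c : Fin m} {n n' : ℕ} {a : Fin n → Ω} (ha : Function.Injective a)
    (hroot : ∀ y : Ω, (F b).eval₂ j y = 0 ↔ ∃ k, y = a k) {a' : Fin n' → Ω} (ha' : Function.Injective a')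
    (hroot' : ∀ y : Ω, (F c).eval₂ j y = 0 ↔ ∃ k, y = a' k) (hnn : n' = n) (π : Fin n → Fin n')
    (hπ : ∀ k k', a' (π k) * a k = a' (π k') * a k') {r : Ω} (hr : r ∈ R) :
    hd b r + hd c r = n ∨ (hd b r = 0 ∧ hd c r = 0) ∨ (hd b r = n ∧ hd c r = n) := by
  classical
  obtain ⟨f, hf, hrel⟩ := C.tor_r hr
  have h0 : ∀ k, a k ≠ 0 := fun k => C.ne b hroot k
  have h0' : ∀ k, a' k ≠ 0 := fun k => C.ne c hroot' k
  obtain ⟨hf1, hf2⟩ := hf b ha hroot
  obtain ⟨hf1', hf2'⟩ := hf c ha' hroot'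
  have hinj : Function.Injective π := by
    intro k k' hkk
    have h1 := hπ k k'
    rw [hkk] at h1
    exact ha (mul_left_cancel₀ (h0' _) h1)
  have hbij : Function.Bijective π := (Fintype.bijective_iff_injective_and_card π).2 ⟨hinj, by
    rw [Fintype.card_fin, Fintype.card_fin, hnn]⟩
  have hsum : ∑ k, f (a' (π k)) = hd c r := by
    rw [← hf2']
    exact hbij.sum_comp fun k => f (a' k)
  have hconst : ∀ k k', f (a' (π k)) + f (a k) = f (a' (π k')) + f (a k') := by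
    intro k k'
    have h1 := hrel (Fin 4) ![a' (π k), a k, a' (π k'), a k'] ![1, 1, -1, -1] (by
      intro x
      fin_cases x
      · exact ⟨c, (hroot' _).2 ⟨_, rfl⟩⟩
      · exact ⟨b, (hroot _).2 ⟨_, rfl⟩⟩
      · exact ⟨c, (hroot' _).2 ⟨_, rfl⟩⟩
      · exact ⟨b, (hroot _).2 ⟨_, rfl⟩⟩) (by
      have h3 := h0 k'
      have h4 := h0' (π k')
      have h5 := hπ k k'
      simp [Fin.prod_univ_succ]
      field_simp
      exact h5)
    simp [Fin.sum_univ_succ] at h1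
    linarith
  by_cases hn : n = 0
  · subst hn
    subst hnn
    have e1 : (hd b r : ℤ) = 0 := by rw [← hf2]; simp
    have e2 : (hd c r : ℤ) = 0 := by rw [← hf2']; simp
    left
    omega
  have k₀ : Fin n := ⟨0, Nat.pos_of_ne_zero hn⟩
  have h1 : (hd c r : ℤ) + hd b r = n * (f (a' (π k₀)) + f (a k₀)) := by
    rw [← hsum, ← hf2, ← Finset.sum_add_distrib, Finset.sum_congr rfl fun k _ => hconst k k₀, Finset.sum_const,
      Finset.card_univ, Fintype.card_fin, nsmul_eq_mul]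
  have hle : ∀ (g : Fin n → ℤ), (∀ k, g k = 0 ∨ g k = 1) → 0 ≤ ∑ k, g k ∧ ∑ k, g k ≤ n := by
    intro g hg
    refine ⟨Finset.sum_nonneg fun k _ => by rcases hg k with h | h <;> omega, ?_⟩
    calc ∑ k, g k ≤ ∑ _k : Fin n, (1 : ℤ) := Finset.sum_le_sum fun k _ => by rcases hg k with h | h <;> omega
      _ = n := by simp
  have h2 := hle (fun k => f (a k)) hf1
  have h3 := hle (fun k => f (a' (π k))) (fun k => hf1' _)
  rw [hf2] at h2
  rw [hsum] at h3
  rcases hf1 k₀ with h4 | h4 <;> rcases hf1' (π k₀) with h5 | h5 <;> rw [h4, h5] at h1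
  · right; left; omega
  · left; omega
  · left; omega
  · right; right; omega

omit [Fintype ι] [DecidableEq ι] [NumberField M] [Group G] [Fact p.Prime] [IsAlgClosed Ω] [Algebra.IsAlgebraic ℚ Ω] C in
theorem six_sum (w : Fin 4 → ℤ) (f g : Fin 6 → Fin 4) (hfg : ∀ i, f i ≠ g i)
    (hinj : ∀ i j, ({f i, g i} : Finset (Fin 4)) = {f j, g j} → i = j) :
    ∑ i, (w (f i) + w (g i)) = 3 * ∑ k, w k := by
  classical
  have h1 : ∀ i, w (f i) + w (g i) = ∑ x ∈ ({f i, g i} : Finset (Fin 4)), w x := fun i =>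
    (Finset.sum_pair (hfg i)).symm
  have h2 : Finset.univ.image (fun i => ({f i, g i} : Finset (Fin 4))) = Finset.powersetCard 2 Finset.univ := by
    apply Finset.eq_of_subset_of_card_le
    · intro s hs
      obtain ⟨i, -, rfl⟩ := Finset.mem_image.1 hs
      rw [Finset.mem_powersetCard]
      exact ⟨Finset.subset_univ _, Finset.card_pair (hfg i)⟩
    · rw [Finset.card_image_of_injective _ (fun i j h => hinj i j h), Finset.card_powersetCard]
      simp
      decide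
  rw [Finset.sum_congr rfl fun i _ => h1 i]
  have h3 : ∑ s ∈ Finset.univ.image (fun i => ({f i, g i} : Finset (Fin 4))), ∑ x ∈ s, w x =
      ∑ i, ∑ x ∈ ({f i, g i} : Finset (Fin 4)), w x :=
    Finset.sum_image fun i _ j _ h => hinj i j h
  rw [← h3, h2]
  have h4 : Finset.powersetCard 2 (Finset.univ : Finset (Fin 4)) =
      {{0, 1}, {0, 2}, {0, 3}, {1, 2}, {1, 3}, {2, 3}} := by decide
  have h5 : ∀ W : Finset (Fin 4) → ℤ, ∑ s ∈ ({{0, 1}, {0, 2}, {0, 3}, {1, 2}, {1, 3}, {2, 3}} :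
      Finset (Finset (Fin 4))), W s = W {0, 1} + (W {0, 2} + (W {0, 3} + (W {1, 2} + (W {1, 3} + W {2, 3})))) := by
    intro W
    rw [Finset.sum_insert (by decide), Finset.sum_insert (by decide), Finset.sum_insert (by decide),
      Finset.sum_insert (by decide), Finset.sum_insert (by decide), Finset.sum_singleton]
  have h6 : ∀ x y : Fin 4, x ≠ y → ∑ x ∈ ({x, y} : Finset (Fin 4)), w x = w x + w y := fun x y h =>
    Finset.sum_pair h
  rw [h4, h5, h6 0 1 (by decide), h6 0 2 (by decide), h6 0 3 (by decide), h6 1 2 (by decide),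
    h6 1 3 (by decide), h6 2 3 (by decide), Fin.sum_univ_four]
  ring

/-- If the eigenvalues on the component `b` with a form, of rank `6`, are, up to a constant, the products of
two eigenvalues on the component `c` of rank `4`, then the multiplicity of `c` is `1` or `3`. -/
theorem Core5a.pair_six {b c : Fin m} (hb : cl b ≠ .n) {n n' : ℕ} {a : Fin n → Ω} (ha : Function.Injective a)
    (hroot : ∀ y : Ω, (F b).eval₂ j y = 0 ↔ ∃ k, y = a k) {a' : Fin n' → Ω} (ha' : Function.Injective a')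
    (hroot' : ∀ y : Ω, (F c).eval₂ j y = 0 ↔ ∃ k, y = a' k) (hn : n = 6) (hn' : n' = 4)
    (f g : Fin n → Fin n') (hfg : ∀ i, f i ≠ g i)
    (hrel : ∀ i j, a i * a' (f j) * a' (g j) = a j * a' (f i) * a' (g i)) {r : Ω} (hr : r ∈ R) :
    hd c r = 1 ∨ hd c r = 3 := by
  classical
  subst hn hn'
  obtain ⟨w, hw, hwrel⟩ := C.tor_r hr
  have h0 : ∀ k, a k ≠ 0 := fun k => C.ne b hroot k
  have h0' : ∀ k, a' k ≠ 0 := fun k => C.ne c hroot' k
  obtain ⟨hf1, hf2⟩ := hw b ha hroot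
  obtain ⟨hf1', hf2'⟩ := hw c ha' hroot'
  have hinj : ∀ i j, ({f i, g i} : Finset (Fin 4)) = {f j, g j} → i = j := by
    intro i j hij
    have h1 : a' (f i) * a' (g i) = a' (f j) * a' (g j) := by
      rw [← Finset.prod_pair (f := a') (hfg i), ← Finset.prod_pair (f := a') (hfg j), hij]
    have h2 := hrel i j
    rw [mul_assoc, mul_assoc, h1] at h2
    exact ha (mul_right_cancel₀ (mul_ne_zero (h0' _) (h0' _)) h2)
  have hconst : ∀ i j, w (a' (f i)) + w (a' (g i)) - w (a i) = w (a' (f j)) + w (a' (g j)) - w (a j) := by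
    intro i j
    have h1 := hwrel (Fin 6) ![a i, a' (f j), a' (g j), a j, a' (f i), a' (g i)] ![1, 1, 1, -1, -1, -1] (by
      intro x
      fin_cases x
      · exact ⟨b, (hroot _).2 ⟨_, rfl⟩⟩
      · exact ⟨c, (hroot' _).2 ⟨_, rfl⟩⟩
      · exact ⟨c, (hroot' _).2 ⟨_, rfl⟩⟩
      · exact ⟨b, (hroot _).2 ⟨_, rfl⟩⟩
      · exact ⟨c, (hroot' _).2 ⟨_, rfl⟩⟩
      · exact ⟨c, (hroot' _).2 ⟨_, rfl⟩⟩) (by
      have h3 := h0 j
      have h4 := h0' (f i)
      have h5 := h0' (g i)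
      have h6 := hrel i j
      simp [Fin.prod_univ_succ]
      field_simp
      linear_combination h6)
    simp [Fin.sum_univ_succ] at h1
    linarith
  have h1 : ∑ i, (w (a' (f i)) + w (a' (g i))) = 3 * ∑ k, w (a' k) :=
    six_sum (fun k => w (a' k)) f g hfg hinj
  have h2 : ∑ i, (w (a' (f i)) + w (a' (g i)) - w (a i)) = 6 * (w (a' (f 0)) + w (a' (g 0)) - w (a 0)) := by
    rw [Finset.sum_congr rfl fun i _ => hconst i 0, Finset.sum_const, Finset.card_univ, Fintype.card_fin,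
      nsmul_eq_mul]
    rfl
  rw [Finset.sum_sub_distrib, h1, hf2, hf2'] at h2
  have h3 : 2 * hd b r = 6 := by
    obtain ⟨i, hi⟩ := C.w2_i hr
    rw [← C.hdg b i r hr hi, C.bal p μ C.crys.mu (i.comp j) b hb]
    exact (C.card b ha hroot).symm
  have h4 : ∑ k, w (a' k) ≤ 4 := by
    calc ∑ k, w (a' k) ≤ ∑ _k : Fin 4, (1 : ℤ) := Finset.sum_le_sum fun k _ => by rcases hf1' k with h | h <;> omega
      _ = 4 := by simp
  rw [hf2'] at h4
  omega

end Pool.Agent.H45U
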