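import Pool.Agent.Lib.H34V.VD
import Pool.Agent.Lib.H25Y.Sym

/-!
# Perm: an intertwiner of two blocks permutes the eigenvectors of Frobenius
-/

set_option autoImplicit false
set_option linter.unusedSectionVars false
namespace Pool.Agent.H25W
open Module Matrix Pool.Agent.H53Toric Pool.Agent.H76P Pool.Agent.H34Z Pool.Agent.H34V

variable {κ κ' : Type*} [Fintype κ] [DecidableEq κ] [Fintype κ'] [DecidableEq κ'] {K : Type*} [Field K] [CharZero K]
  [IsAlgClosed K]

/-- An intertwiner maps eigenvectors to eigenvectors, and the eigenvalues are proportional. -/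
theorem perm_of_T {𝓛 : Submodule K (Module.End K (κ → K) × Module.End K (κ' → K))}
    {L' : Submodule K (Module.End K (κ' → K))} {d : κ → K} {d' : κ' → K}
    (snd : ∀ X' ∈ L', ∃ X, (X, X') ∈ 𝓛) (inj : Function.Injective d) (inj' : Function.Injective d')
    (ne : ∀ k, d k ≠ 0) (ne' : ∀ k, d' k ≠ 0)
    (cnj : ∀ X X', (X, X') ∈ 𝓛 →
      (dg d * X * dg (fun k => (d k)⁻¹), dg d' * X' * dg (fun k => (d' k)⁻¹)) ∈ 𝓛)
    (hirr' : Irr L') [Nonempty κ'] {T : (κ → K) →ₗ[K] (κ' → K)} (hb : Function.Bijective T)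
    (hT : ∀ p ∈ 𝓛, ∀ v, T (p.1 v) = p.2 (T v)) :
    ∃ (π : κ ≃ κ') (χ : K) (t : κ → K), χ ≠ 0 ∧ (∀ k, d' (π k) = χ * d k) ∧
      (∀ k, t k ≠ 0) ∧ ∀ k, T (Pi.single k 1) = t k • Pi.single (π k) 1 := by
  classical
  obtain ⟨Te, hTe⟩ : ∃ Te : (κ → K) ≃ₗ[K] (κ' → K), ∀ v, Te v = T v :=
    ⟨LinearEquiv.ofBijective T hb, fun v => rfl⟩
  have hinv : ∀ v, Te.symm (T v) = v := by
    intro v
    rw [← hTe, LinearEquiv.symm_apply_apply]
  have hdd : ∀ v : κ → K, dg (fun k => (d k)⁻¹) (dg d v) = v := by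
    intro v
    funext k
    rw [dg_apply, dg_apply, ← mul_assoc, inv_mul_cancel₀ (ne k), one_mul]
  have hdd' : ∀ v : κ' → K, dg d' (dg (fun k => (d' k)⁻¹) v) = v := by
    intro v
    funext k
    rw [dg_apply, dg_apply, ← mul_assoc, mul_inv_cancel₀ (ne' k), one_mul]
  have hdd'' : ∀ v : κ' → K, dg (fun k => (d' k)⁻¹) (dg d' v) = v := by
    intro v
    funext k
    rw [dg_apply, dg_apply, ← mul_assoc, inv_mul_cancel₀ (ne' k), one_mul]
  let Z : Module.End K (κ' → K) := (dg (fun k => (d' k)⁻¹)) ∘ₗ T ∘ₗ (dg d) ∘ₗ Te.symm.toLinearMap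
  have hZT : ∀ v, Z (T v) = dg (fun k => (d' k)⁻¹) (T (dg d v)) := by
    intro v
    change dg (fun k => (d' k)⁻¹) (T (dg d (Te.symm (T v)))) = _
    rw [hinv]
  have hcomm : ∀ X' ∈ L', Z * X' = X' * Z := by
    intro X' hX'
    obtain ⟨X, hX⟩ := snd X' hX'
    refine LinearMap.ext fun v' => ?_
    obtain ⟨v, rfl⟩ := hb.2 v'
    rw [Module.End.mul_apply, Module.End.mul_apply, hZT v, ← hT (X, X') hX v]
    change Z (T (X v)) = _
    rw [hZT]
    have h1 := hT _ (cnj X X' hX) (dg d v)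
    change T (dg d (X (dg (fun k => (d k)⁻¹) (dg d v)))) = dg d' (X' (dg (fun k => (d' k)⁻¹) (T (dg d v)))) at h1
    rw [hdd] at h1
    rw [h1, hdd'']
  obtain ⟨c, hc⟩ := H25Y.scalar_of_comm hirr' hcomm
  have hTd : ∀ v, T (dg d v) = c • dg d' (T v) := by
    intro v
    have h1 := hZT v
    rw [hc, LinearMap.smul_apply, Module.End.one_apply] at h1
    have h2 := congrArg (fun w => dg d' w) h1
    beta_reduce at h2
    rw [hdd', map_smul] at h2
    exact h2.symm
  have hent : ∀ k k', T (Pi.single k 1) k' ≠ 0 → d k = c * d' k' := by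
    intro k k' h0
    have h1 := congrFun (hTd (Pi.single k 1)) k'
    have e1 : dg d (Pi.single k 1) = d k • (Pi.single k 1 : κ → K) := by
      funext a
      rw [dg_apply, Pi.smul_apply, smul_eq_mul]
      rcases eq_or_ne a k with rfl | ha
      · rfl
      · rw [Pi.single_eq_of_ne ha, mul_zero, mul_zero]
    rw [e1, map_smul, Pi.smul_apply, Pi.smul_apply, dg_apply, smul_eq_mul, smul_eq_mul, ← mul_assoc] at h1
    exact mul_right_cancel₀ h0 h1
  have hc0 : c ≠ 0 := by
    rintro rfl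
    obtain ⟨k'⟩ := (inferInstance : Nonempty κ')
    obtain ⟨v, hv⟩ := hb.2 (Pi.single k' 1)
    have h1 := hTd (dg (fun k => (d k)⁻¹) v)
    have e1 : dg d (dg (fun k => (d k)⁻¹) v) = v := by
      funext k
      rw [dg_apply, dg_apply, ← mul_assoc, mul_inv_cancel₀ (ne k), one_mul]
    rw [e1, zero_smul, hv] at h1
    have h2 := congrFun h1 k'
    rw [Pi.single_eq_same, Pi.zero_apply] at h2
    exact one_ne_zero h2
  have hex : ∀ k, ∃ k', T (Pi.single k 1) k' ≠ 0 := by
    intro k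
    by_contra hcon
    push Not at hcon
    have h1 : T (Pi.single k 1) = T 0 := by
      rw [map_zero]
      funext k'
      exact hcon k'
    have h2 := congrFun (hb.1 h1) k
    rw [Pi.single_eq_same, Pi.zero_apply] at h2
    exact one_ne_zero h2
  choose π hπ using hex
  have hd : ∀ k, d k = c * d' (π k) := fun k => hent k _ (hπ k)
  have hsing : ∀ k, T (Pi.single k 1) = T (Pi.single k 1) (π k) • Pi.single (π k) 1 := by
    intro k
    funext k'
    rw [Pi.smul_apply, smul_eq_mul]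
    rcases eq_or_ne k' (π k) with rfl | hk
    · rw [Pi.single_eq_same, mul_one]
    · rw [Pi.single_eq_of_ne hk, mul_zero]
      by_contra h0
      apply hk
      apply inj'
      have h1 := hent k k' h0
      rw [hd k] at h1
      exact (mul_left_cancel₀ hc0 h1).symm
  have hinj : Function.Injective π := by
    intro k l hkl
    apply inj
    rw [hd k, hd l, hkl]
  have hsurj : Function.Surjective π := by
    intro k'
    obtain ⟨v, hv⟩ := hb.2 (Pi.single k' 1)
    by_contra hcon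
    push Not at hcon
    have h1 : v = ∑ k, v k • (Pi.single k 1 : κ → K) := by
      funext a
      rw [Finset.sum_apply, Finset.sum_eq_single a]
      · rw [Pi.smul_apply, Pi.single_eq_same, smul_eq_mul, mul_one]
      · intro b _ hb
        rw [Pi.smul_apply, Pi.single_eq_of_ne hb.symm, smul_zero]
      · intro h
        exact absurd (Finset.mem_univ _) h
    have h2 := congrFun hv k'
    rw [Pi.single_eq_same, h1, map_sum, Finset.sum_apply, Finset.sum_eq_zero] at h2
    · exact zero_ne_one h2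
    · intro k _
      rw [map_smul, hsing k, Pi.smul_apply, Pi.smul_apply, Pi.single_eq_of_ne (hcon k).symm, smul_zero, smul_zero]
  have hbij : Function.Bijective π := ⟨hinj, hsurj⟩
  refine ⟨Equiv.ofBijective π hbij, c⁻¹, fun k => T (Pi.single k 1) (π k), inv_ne_zero hc0, fun k => ?_,
    hπ, hsing⟩
  change d' (π k) = c⁻¹ * d k
  rw [hd k, ← mul_assoc, inv_mul_cancel₀ hc0, one_mul]

/-- The eigenvalues of two isomorphic blocks are proportional. -/
theorem Gz_perm {𝓛 : Submodule K (Module.End K (κ → K) × Module.End K (κ' → K))}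
    {L : Submodule K (Module.End K (κ → K))} {L' : Submodule K (Module.End K (κ' → K))} {d : κ → K} {d' : κ' → K}
    (h : Gz 𝓛 L L' d d') (hirr' : Irr L') [Nonempty κ'] {T : (κ → K) →ₗ[K] (κ' → K)} (hb : Function.Bijective T)
    (hT : ∀ p ∈ 𝓛, ∀ v, T (p.1 v) = p.2 (T v)) :
    ∃ π : κ ≃ κ', ∀ k k', d' (π k) * d k' = d' (π k') * d k := by
  obtain ⟨π, χ, t, -, h1, -, -⟩ := perm_of_T (fun X' hX' => (h.snd X').1 hX') h.inj h.inj' h.ne h.ne' h.cnj hirr' hb hT
  refine ⟨π, fun k k' => ?_⟩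
  rw [h1, h1]
  ring

/-- The eigenvalues of two dual blocks are inversely proportional. -/
theorem Gz_permD {𝓛 : Submodule K (Module.End K (κ → K) × Module.End K (κ' → K))}
    {L : Submodule K (Module.End K (κ → K))} {L' : Submodule K (Module.End K (κ' → K))} {d : κ → K} {d' : κ' → K}
    (h : Gz 𝓛 L L' d d') (hirr' : Irr L') [Nonempty κ'] {T : (κ → K) →ₗ[K] (κ' → K)} (hb : Function.Bijective T)
    (hT : ∀ p ∈ 𝓛, ∀ v, T (adjE (1 : Matrix κ κ K) p.1 v) = -p.2 (T v)) :
    ∃ π : κ ≃ κ', ∀ k k', d' (π k) * d k = d' (π k') * d k' := by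
  have hA : ∀ (f g : κ → K) (X : Module.End K (κ → K)), adjE (1 : Matrix κ κ K) (dg f * X * dg g) =
      dg g * adjE (1 : Matrix κ κ K) X * dg f := by
    intro f g X
    have hdg : ∀ f : κ → K, dg f = phi (Matrix.diagonal f) := by
      intro f
      refine LinearMap.ext fun v => funext fun a => ?_
      rw [dg_apply, phi_apply, Matrix.mulVec_diagonal]
    have hX : X = phi (phi.symm X) := (AlgEquiv.apply_symm_apply phi X).symm
    rw [hX, hdg f, hdg g, ← map_mul, ← map_mul, adjE_phi, adjE_phi, inv_one, one_mul, mul_one, one_mul, mul_one,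
      ← map_mul, ← map_mul, Matrix.transpose_mul, Matrix.transpose_mul, Matrix.diagonal_transpose,
      Matrix.diagonal_transpose, Matrix.mul_assoc]
  have hAA : ∀ X : Module.End K (κ → K), adjE (1 : Matrix κ κ K) (adjE (1 : Matrix κ κ K) X) = X := by
    intro X
    have hX : X = phi (phi.symm X) := (AlgEquiv.apply_symm_apply phi X).symm
    rw [hX, adjE_phi, adjE_phi, inv_one, one_mul, mul_one, one_mul, mul_one, Matrix.transpose_transpose]
  have hmem : ∀ {X : Module.End K (κ → K)} {X' : Module.End K (κ' → K)},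
      (X, X') ∈ Lt 𝓛 ↔ (-(adjE (1 : Matrix κ κ K) X), X') ∈ 𝓛 := Iff.rfl
  obtain ⟨π, χ, t, -, h1, -, -⟩ := perm_of_T (𝓛 := Lt 𝓛) (L' := L') (d := fun k => (d k)⁻¹) (d' := d')
    (fun X' hX' => by
      obtain ⟨X, hX⟩ := (h.snd X').1 hX'
      refine ⟨-(adjE (1 : Matrix κ κ K) X), ?_⟩
      rw [hmem, map_neg, neg_neg, hAA]
      exact hX)
    (fun k l hkl => h.inj (inv_injective hkl)) h.inj' (fun k => inv_ne_zero (h.ne k)) h.ne'
    (fun X X' hX => by
      rw [hmem] at hX ⊢
      have h2 := h.cnj _ _ hX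
      rw [hA]
      have e : (fun k => ((d k)⁻¹)⁻¹) = d := funext fun k => inv_inv _
      rw [e]
      have e2 : dg d * -(adjE (1 : Matrix κ κ K) X) * dg (fun k => (d k)⁻¹) =
          -(dg d * adjE (1 : Matrix κ κ K) X * dg (fun k => (d k)⁻¹)) := by
        refine LinearMap.ext fun v => ?_
        change dg d (-(adjE (1 : Matrix κ κ K) X (dg (fun k => (d k)⁻¹) v))) =
          -(dg d (adjE (1 : Matrix κ κ K) X (dg (fun k => (d k)⁻¹) v)))
        rw [map_neg]
      rw [← e2]
      exact h2) hirr' hb (fun p hp v => by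
      have h2 : (-(adjE (1 : Matrix κ κ K) p.1), p.2) ∈ 𝓛 := hp
      have h3 := hT _ h2 v
      change T (adjE (1 : Matrix κ κ K) (-(adjE (1 : Matrix κ κ K) p.1)) v) = -p.2 (T v) at h3
      rw [map_neg, hAA, LinearMap.neg_apply, map_neg, neg_inj] at h3
      exact h3)
  refine ⟨π, fun k k' => ?_⟩
  rw [h1, h1, mul_assoc, mul_assoc, inv_mul_cancel₀ (h.ne k), inv_mul_cancel₀ (h.ne k')]

end Pool.Agent.H25W
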