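import Pool.Agent.Lib.H25W.Tor
import Pool.Agent.Lib.H45U.W2a

/-!
# Rel: relations between the ranks and multiplicative relations between the eigenvalues
-/

set_option autoImplicit false
set_option linter.unusedSectionVars false
namespace Pool.Agent.H25W
open Module Matrix Pool.Agent.H53Toric
open Pool.Agent.H76P (LogLin zlie_pow G13_eq G13_act EC PH zlie_sim)

variable {ι : Type*} [Fintype ι] [DecidableEq ι] {K : Type*} [Field K] [CharZero K]

/-- There are two eigenvectors which are not orthogonal. -/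
theorem eig_pair {J φ : Matrix ι ι K} (hdg : Diagonalisable φ) (hJ : J ≠ 0) :
    ∃ (z z' : ι → K) (c c' : K), z ≠ 0 ∧ z' ≠ 0 ∧ φ *ᵥ z = c • z ∧ φ *ᵥ z' = c' • z' ∧
      z ⬝ᵥ (J *ᵥ z') ≠ 0 := by
  obtain ⟨P, Q, d, hPQ, hQP, hφ⟩ := hdg
  have h1 : ∃ i j, (Pᵀ * J * P) i j ≠ 0 := by
    by_contra hcon
    push Not at hcon
    apply hJ
    have h2 : Pᵀ * J * P = 0 := by ext i j; exact hcon i j
    have h3 : (P * Q)ᵀ * J * (P * Q) = Qᵀ * (Pᵀ * J * P) * Q := by
      rw [Matrix.transpose_mul]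
      noncomm_ring
    rw [hPQ, Matrix.transpose_one, one_mul, mul_one, h2, mul_zero, zero_mul] at h3
    exact h3
  obtain ⟨i, j, hij⟩ := h1
  have hcol : ∀ k, φ *ᵥ (fun x => P x k) = d k • (fun x => P x k) := by
    intro k
    have h2 : φ * P = P * Matrix.diagonal d := by
      rw [hφ, Matrix.mul_assoc, hQP, Matrix.mul_one]
    funext x
    have h3 := congrFun (congrFun h2 x) k
    rw [Matrix.mul_diagonal] at h3
    rw [Pi.smul_apply, smul_eq_mul, mul_comm, ← h3]
    rfl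
  have hdot : (fun x => P x i) ⬝ᵥ (J *ᵥ (fun x => P x j)) = (Pᵀ * J * P) i j := by
    rw [Matrix.mul_assoc]
    rfl
  refine ⟨fun x => P x i, fun x => P x j, d i, d j, ?_, ?_, hcol i, hcol j, by rw [hdot]; exact hij⟩
  · intro h0
    rw [← hdot, h0, zero_dotProduct] at hij
    exact hij rfl
  · intro h0
    rw [← hdot, h0, Matrix.mulVec_zero, dotProduct_zero] at hij
    exact hij rfl

theorem tr_mult {C J : Matrix ι ι K} {c : K} (hC : Cᵀ * J + J * C = c • J) (hJ : J.det ≠ 0) :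
    2 * C.trace = c * Fintype.card ι := by
  have h1 : J⁻¹ * J = 1 := Matrix.nonsing_inv_mul J (isUnit_iff_ne_zero.2 hJ)
  have h1' : J * J⁻¹ = 1 := Matrix.mul_nonsing_inv J (isUnit_iff_ne_zero.2 hJ)
  have h2 : (J⁻¹ * (Cᵀ * J + J * C)).trace = c * Fintype.card ι := by
    rw [hC, mul_smul_comm, h1, Matrix.trace_smul, Matrix.trace_one, smul_eq_mul]
  rw [mul_add, ← mul_assoc J⁻¹ J C, h1, one_mul, Matrix.trace_add, Matrix.trace_mul_comm, mul_assoc, h1',
    mul_one, Matrix.trace_transpose] at h2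
  rw [two_mul, h2]

section
variable [Nonempty ι] {S 𝓗 : Set (Matrix ι ι K)} {J φ φ' : Matrix ι ι K}
  {DD : Submodule K (Matrix ι ι K)} (g : PH S J DD 𝓗 φ φ') (hJ : J.det ≠ 0) {q : K}
  (hq : φᵀ * J * φ = q • J)
  {m : ℕ} {n : Fin m → ℕ} {e : Fin m → Matrix ι ι K} (hD : ∀ b, e b ∈ DD)
  (U : ∀ b, Matrix ι (Fin (n b)) K) (V : ∀ b, Matrix (Fin (n b)) ι K)
  (hUV : ∀ b, e b = U b * V b) (hVU : ∀ b, V b * U b = 1) (d : ∀ b, Fin (n b) → K)
  (heig : ∀ b, φ * U b = U b * Matrix.diagonal (d b)) (a : Fin m → ℤ) (a₀ : ℤ)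

include g in
theorem ph_comm {h : Matrix ι ι K} (hh : h ∈ 𝓗) {p : Matrix ι ι K} (hp : p ∈ DD) : h * p = p * h := by
  exact Pool.Agent.H76RM.zlie_commute g.sh.one (fun s hs => g.sh.SD s hs p hp) (g.sh.hz h hh)

include g hJ hq hD hUV hVU heig in
/-- A multiplicative relation between the determinants of `φ` gives a linear relation for the
ranks. -/
theorem rel_lie (hrel : (∏ b, (∏ k, d b k) ^ a b) * q ^ a₀ = 1) {h : Matrix ι ι K} (hh : h ∈ 𝓗) :
    ∑ b, a b * ((h * e b).rank : ℤ) + a₀ = 0 := by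
  classical
  have hφφ' := g.inv
  have hdetφ : φ.det ≠ 0 := by
    intro h0
    have h1 := congrArg Matrix.det hφφ'
    rw [Matrix.det_mul, h0, zero_mul, Matrix.det_one] at h1
    exact zero_ne_one h1
  have hJ0 : J ≠ 0 := by
    rintro rfl
    rw [Matrix.det_zero] at hJ
    exact hJ rfl
  obtain ⟨C, hC, hCφ, hCtr⟩ := zero_part_tr hφφ' g.dgb g.cnj (g.sh.hz h hh)
  obtain ⟨f, hf, hfrel⟩ := tor_fun g.dgb hdetφ (g.torus C hC hCφ)
  obtain ⟨c, hc⟩ := zlie_sim g.sh.one hJ0 g.Ssim hC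
  -- the multiplier is one
  have hc1 : c = 1 := by
    have h1 := tr_mult hc hJ
    have h2 := tr_mult (c := 1) (by rw [one_smul]; exact g.sh.hs h hh) hJ
    have h3 := hCtr 1 (by rw [one_mul, mul_one])
    rw [mul_one, mul_one] at h3
    rw [h3, h2] at h1
    have h4 : (Fintype.card ι : K) ≠ 0 := Nat.cast_ne_zero.2 Fintype.card_ne_zero
    exact (mul_right_cancel₀ h4 h1).symm
  rw [hc1, one_smul] at hc
  obtain ⟨z, z', l, l', hz, hz', hzl, hzl', hzz⟩ := eig_pair g.dgb hJ0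
  have hdot : ∀ (X : Matrix ι ι K) (s t : K), X *ᵥ z = s • z → X *ᵥ z' = t • z' →
      z ⬝ᵥ ((Xᵀ * J + J * X) *ᵥ z') = (s + t) * (z ⬝ᵥ (J *ᵥ z')) := by
    intro X s t h1 h2
    rw [Matrix.add_mulVec, dotProduct_add, ← Matrix.mulVec_mulVec, ← Matrix.mulVec_mulVec, h2,
      Matrix.mulVec_smul, dotProduct_smul, Matrix.dotProduct_mulVec, Matrix.vecMul_transpose, h1,
      smul_dotProduct, smul_eq_mul, smul_eq_mul, add_mul]
  have hff : f l + f l' = 1 := by
    have h1 := hdot C (f l) (f l') (hf l z hzl) (hf l' z' hzl')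
    rw [hc] at h1
    have h2 : 1 * (z ⬝ᵥ (J *ᵥ z')) = (f l + f l') * (z ⬝ᵥ (J *ᵥ z')) := by rw [one_mul]; exact h1
    exact (mul_right_cancel₀ hzz h2).symm
  have hqll : q = l * l' := by
    have h1 : z ⬝ᵥ ((φᵀ * J * φ) *ᵥ z') = (l * l') * (z ⬝ᵥ (J *ᵥ z')) := by
      rw [← Matrix.mulVec_mulVec, hzl', Matrix.mulVec_smul, dotProduct_smul, ← Matrix.mulVec_mulVec,
        Matrix.dotProduct_mulVec, Matrix.vecMul_transpose, hzl, smul_dotProduct, smul_eq_mul, smul_eq_mul]
      ring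
    rw [hq, Matrix.smul_mulVec, dotProduct_smul, smul_eq_mul] at h1
    exact mul_right_cancel₀ hzz h1
  -- the action on the columns
  have hUcol : ∀ b k, φ *ᵥ (fun x => U b x k) = d b k • (fun x => U b x k) := by
    intro b k
    funext x
    have h3 := congrFun (congrFun (heig b) x) k
    rw [Matrix.mul_diagonal] at h3
    rw [Pi.smul_apply, smul_eq_mul, mul_comm, ← h3]
    rfl
  have hUne : ∀ b k, (fun x => U b x k) ≠ 0 := by
    intro b k h0
    have h1 := congrFun (congrFun (hVU b) k) k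
    rw [Matrix.one_apply_eq, Matrix.mul_apply] at h1
    rw [Finset.sum_eq_zero fun x _ => by rw [congrFun h0 x, Pi.zero_apply, mul_zero]] at h1
    exact zero_ne_one h1
  have hCU : ∀ b, C * U b = U b * Matrix.diagonal (fun k => f (d b k)) := by
    intro b
    ext x k
    have h1 := congrFun (hf _ _ (hUcol b k)) x
    rw [Pi.smul_apply, smul_eq_mul] at h1
    rw [Matrix.mul_diagonal, mul_comm (U b x k), ← h1]
    rfl
  have heφ : ∀ b, e b * φ = φ * e b := fun b => (g.φD (e b) (hD b)).symm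
  have hidem : ∀ b, e b * e b = e b := by
    intro b
    rw [hUV b]
    calc U b * V b * (U b * V b) = U b * (V b * U b) * V b := by simp only [Matrix.mul_assoc]
      _ = U b * V b := by rw [hVU, Matrix.mul_one]
  have hrank : ∀ b, ((h * e b).rank : K) = ∑ k, f (d b k) := by
    intro b
    have h1 : h * e b * (h * e b) = h * e b := by
      have h2 := ph_comm g hh (hD b)
      calc h * e b * (h * e b) = h * (e b * h) * e b := by noncomm_ring
        _ = (h * h) * (e b * e b) := by rw [← h2]; noncomm_ring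
        _ = h * e b := by rw [g.sh.hi h hh, hidem]
    rw [Pool.Agent.H76T.rank_eq_trace h1]
    have h3 : LinearMap.trace K (ι → K) (phi (h * e b)) = (h * e b).trace := by
      exact Matrix.trace_toLin'_eq _
    rw [h3, ← hCtr (e b) (heφ b)]
    have h4 : C * e b = U b * (Matrix.diagonal (fun k => f (d b k)) * V b) := by
      rw [hUV b, ← Matrix.mul_assoc, hCU, Matrix.mul_assoc]
    rw [h4, Matrix.trace_mul_comm, Matrix.mul_assoc, hVU, Matrix.mul_one, Matrix.trace_diagonal]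
  -- the relation
  have h5 := hfrel ((Σ b : Fin m, Fin (n b)) ⊕ Fin 2)
    (Sum.elim (fun s => d s.1 s.2) ![l, l']) (Sum.elim (fun s => a s.1) ![a₀, a₀]) (by
      rintro (s | s)
      · exact ⟨_, hUne s.1 s.2, hUcol s.1 s.2⟩
      · fin_cases s
        · exact ⟨z, hz, hzl⟩
        · exact ⟨z', hz', hzl'⟩) (by
      rw [Fintype.prod_sum_type, Fin.prod_univ_two, Fintype.prod_sigma, ← hrel, hqll]
      congr 1
      · refine Finset.prod_congr rfl fun b _ => ?_
        rw [← Finset.prod_zpow]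
        rfl
      · exact (mul_zpow l l' a₀).symm)
  rw [Fintype.sum_sum_type, Fin.sum_univ_two, Fintype.sum_sigma] at h5
  have h6 : ∑ b, (a b : K) * ((h * e b).rank : K) + a₀ = 0 := by
    rw [← h5]
    congr 1
    · refine Finset.sum_congr rfl fun b _ => ?_
      rw [hrank, Finset.mul_sum]
      rfl
    · show (a₀ : K) = (a₀ : K) * f l + (a₀ : K) * f l'
      rw [← mul_add, hff, mul_one]
  exact_mod_cast h6

include g hJ hq hD hUV hVU heig in
/-- A linear relation for the ranks gives a multiplicative relation up to torsion. -/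
theorem rel_tor (ha : ∀ h ∈ 𝓗, ∑ b, a b * ((h * e b).rank : ℤ) + a₀ = 0) :
    ∃ N : ℕ, N ≠ 0 ∧ ((∏ b, (∏ k, d b k) ^ a b) * q ^ a₀) ^ N = 1 := by
  classical
  obtain ⟨N, hN, hz⟩ := g.torgen
  refine ⟨N, hN, ?_⟩
  have hφφ' := g.inv
  have hdetφ : φ.det ≠ 0 := by
    intro h0
    have h1 := congrArg Matrix.det hφφ'
    rw [Matrix.det_mul, h0, zero_mul, Matrix.det_one] at h1
    exact zero_ne_one h1
  have hJ0 : ∃ k l, J k l ≠ 0 := by
    by_contra hcon
    push Not at hcon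
    have h1 : J = 0 := by ext i j; exact hcon i j
    rw [h1, Matrix.det_zero] at hJ
    exact hJ rfl
  obtain ⟨k, l, hkl⟩ := hJ0
  have hidem : ∀ b, e b * e b = e b := by
    intro b
    rw [hUV b]
    calc U b * V b * (U b * V b) = U b * (V b * U b) * V b := by simp only [Matrix.mul_assoc]
      _ = U b * V b := by rw [hVU, Matrix.mul_one]
  have hq0 : q ≠ 0 := by
    rintro rfl
    rw [zero_smul] at hq
    have h1 := congrArg Matrix.det hq
    rw [Matrix.det_mul, Matrix.det_mul, Matrix.det_transpose, Matrix.det_zero] at h1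
    exact mul_ne_zero (mul_ne_zero hdetφ hJ) hdetφ h1
  have hpow : ∀ N : ℕ, (φ ^ N)ᵀ * J * φ ^ N = q ^ N • J := by
    intro N
    induction N with
    | zero => simp
    | succ N ih =>
      rw [pow_succ', Matrix.transpose_mul, pow_succ']
      calc (φ ^ N)ᵀ * φᵀ * J * (φ * φ ^ N) = (φ ^ N)ᵀ * (φᵀ * J * φ) * φ ^ N := by noncomm_ring
        _ = q • ((φ ^ N)ᵀ * J * φ ^ N) := by rw [hq]; simp only [mul_smul_comm, smul_mul_assoc]
        _ = (q * q ^ N) • J := by rw [ih, smul_smul]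
  have hpowU : ∀ b (N : ℕ), φ ^ N * U b = U b * Matrix.diagonal (fun k => d b k ^ N) := by
    intro b N
    induction N with
    | zero => simp
    | succ N ih =>
      rw [pow_succ, Matrix.mul_assoc, heig, ← Matrix.mul_assoc, ih, Matrix.mul_assoc,
        Matrix.diagonal_mul_diagonal]
      simp only [pow_succ]
  have h𝓗 : ∀ h ∈ 𝓗, ∀ b, h * e b = e b * h := fun h hh b => ph_comm g hh (hD b)
  have hadj : ∀ x ∈ {h | h ∈ 𝓗 ∧ h * φ = φ * h}, xᵀ * J * x = 0 ∧ xᵀ * J + J * x = J := by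
    rintro x ⟨hx, -⟩
    have h1 := g.sh.hs x hx
    refine ⟨?_, h1⟩
    have h2 : (xᵀ * J + J * x) * x = J * x := by rw [h1]
    rw [add_mul, mul_assoc J x x, g.sh.hi x hx] at h2
    exact left_eq_add.1 (h2.symm.trans (add_comm _ _))
  have hchar := Pool.Agent.H76U.char_zar (B := Fin m) (J := J) hkl hidem (S := S ∪ {m | ∃ h ∈ 𝓗, ∃ t : K,
      t ≠ 0 ∧ m = 1 + (t - 1) • h}) (by
        rintro s (hs | ⟨h, hh, t, -, rfl⟩) b
        · exact g.sh.SD s hs (e b) (hD b)
        · rw [add_mul, mul_add, one_mul, mul_one, smul_mul_assoc, mul_smul_comm, h𝓗 h hh b])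
    (𝓗 := {h | h ∈ 𝓗 ∧ h * φ = φ * h}) (by
        rintro x ⟨hx, -⟩
        exact ⟨g.sh.hi x hx, fun t ht => subset_zar _ (Or.inr ⟨x, hx, t, ht, rfl⟩)⟩)
    hadj (x := φ ^ N) (by rw [Matrix.det_pow]; exact pow_ne_zero _ hdetφ)
    (fun b => ((show Commute φ (e b) from g.φD (e b) (hD b)).pow_left N).eq) (c := q ^ N) (pow_ne_zero _ hq0) (hpow N)
    (by
      refine zar_mono ?_ hz
      refine Submonoid.closure_mono ?_
      rintro m ⟨h, hh, hc, t, ht, rfl⟩
      exact ⟨h, ⟨hh, hc⟩, t, ht, rfl⟩) a a₀ (fun y hy => ha y hy.1)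
  have hdb : ∀ b, Pool.Agent.H76U.detb (e b) (φ ^ N) = (∏ k, d b k) ^ N := by
    intro b
    rw [Pool.Agent.H76U.detb, Pool.Agent.H45U.det_comp (hUV b) (hVU b) (hpowU b N), Finset.prod_pow]
  rw [← hchar, mul_pow, ← Finset.prod_pow]
  congr 1
  · refine Finset.prod_congr rfl fun b _ => ?_
    rw [hdb, ← zpow_natCast, ← zpow_natCast, ← _root_.zpow_mul, ← _root_.zpow_mul, mul_comm]
  · rw [← zpow_natCast, ← zpow_natCast, ← _root_.zpow_mul, ← _root_.zpow_mul, mul_comm]

end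

end Pool.Agent.H25W
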