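import Pool.Agent.Lib.H76P.G13
import Pool.Agent.Lib.H76P.G3
import Pool.Agent.Lib.H76P.G1
import Pool.Agent.Lib.H76Y.G4
import Pool.Agent.Lib.H76U.Final4

/-!
# Tor: the torus of Frobenius and the characters of the group
-/

set_option autoImplicit false
set_option linter.unusedSectionVars false
namespace Pool.Agent.H25W
open Module Matrix Pool.Agent.H53Toric
open Pool.Agent.H76P (LogLin zlie_pow G13_eq G13_act EC PH zlie_sim)

variable {ι : Type*} [Fintype ι] [DecidableEq ι] {K : Type*} [Field K] [CharZero K]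

theorem tr_step {S : Set (Matrix ι ι K)} {φ φ' P Q : Matrix ι ι K} {d : ι → K}
    (hcnj : ∀ A ∈ zlie S, φ * A * φ' ∈ zlie S)
    (hent : ∀ (C : Matrix ι ι K) (i j : ι), (Q * (φ * C * φ') * P) i j = d i / d j * (Q * C * P) i j)
    (hinv : φ * φ' = 1) {A : Matrix ι ι K} (hA : A ∈ zlie S) (Λ : Finset K) :
    (1 : K) ∉ Λ → ∃ C ∈ zlie S, (∀ i j, d i / d j ∈ Λ → (Q * C * P) i j = 0) ∧
      ∀ p : Matrix ι ι K, p * φ = φ * p → (C * p).trace = (A * p).trace := by
  classical
  refine Finset.induction_on Λ ?_ ?_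
  · intro _
    exact ⟨A, hA, fun i j h => absurd h (Finset.notMem_empty _), fun p _ => rfl⟩
  · intro l Λ' hl ih h1
    rw [Finset.mem_insert, not_or] at h1
    obtain ⟨C, hC, hC1, hC2⟩ := ih h1.2
    have hl1 : (1 - l) ≠ 0 := sub_ne_zero.2 h1.1
    refine ⟨(1 - l)⁻¹ • (φ * C * φ' - l • C), ?_, ?_, ?_⟩
    · exact (zlie S).smul_mem _ ((zlie S).sub_mem (hcnj C hC) ((zlie S).smul_mem _ hC))
    · intro i j hij
      have h2 : (Q * ((1 - l)⁻¹ • (φ * C * φ' - l • C)) * P) i j =
          (1 - l)⁻¹ * ((d i / d j - l) * (Q * C * P) i j) := by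
        rw [mul_smul_comm, smul_mul_assoc, Matrix.smul_apply, mul_sub, sub_mul, Matrix.sub_apply, hent,
          mul_smul_comm, smul_mul_assoc, Matrix.smul_apply, smul_eq_mul, smul_eq_mul, sub_mul]
      rw [h2]
      rcases Finset.mem_insert.1 hij with h3 | h3
      · rw [h3, sub_self, zero_mul, mul_zero]
      · rw [hC1 i j h3, mul_zero, mul_zero]
    · intro p hp
      have hφ'φ : φ' * φ = 1 := _root_.mul_eq_one_comm.1 hinv
      have hp' : φ' * p = p * φ' := by
        calc φ' * p = φ' * p * (φ * φ') := by rw [hinv, mul_one]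
          _ = φ' * (p * φ) * φ' := by noncomm_ring
          _ = φ' * φ * p * φ' := by rw [hp]; noncomm_ring
          _ = p * φ' := by rw [hφ'φ, one_mul]
      have h3 : (φ * C * φ' * p).trace = (C * p).trace := by
        have e1 : φ * C * φ' * p = φ * (C * p * φ') := by
          calc φ * C * φ' * p = φ * C * (φ' * p) := by noncomm_ring
            _ = _ := by rw [hp']; noncomm_ring
        rw [e1, Matrix.trace_mul_comm, mul_assoc, hφ'φ, mul_one]
      rw [smul_mul_assoc, sub_mul, smul_mul_assoc, Matrix.trace_smul, Matrix.trace_sub, Matrix.trace_smul, h3,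
        ← hC2 p hp, smul_eq_mul, smul_eq_mul]
      have h4 : (C * p).trace - l * (C * p).trace = (1 - l) * (C * p).trace := by ring
      rw [h4, ← mul_assoc, inv_mul_cancel₀ hl1, one_mul]

/-- The part of an element of the Lie algebra which commutes with `φ`. -/
theorem zero_part_tr {S : Set (Matrix ι ι K)} {φ φ' : Matrix ι ι K} (hinv : φ * φ' = 1)
    (hdg : Diagonalisable φ) (hcnj : ∀ A ∈ zlie S, φ * A * φ' ∈ zlie S)
    {A : Matrix ι ι K} (hA : A ∈ zlie S) :
    ∃ C ∈ zlie S, C * φ = φ * C ∧ ∀ p : Matrix ι ι K, p * φ = φ * p → (C * p).trace = (A * p).trace := by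
  classical
  obtain ⟨P, Q, d, hPQ, hQP, hφ⟩ := hdg
  have hQφP : Q * φ * P = Matrix.diagonal d := by
    rw [hφ]
    calc Q * (P * Matrix.diagonal d * Q) * P = (Q * P) * Matrix.diagonal d * (Q * P) := by noncomm_ring
      _ = Matrix.diagonal d := by rw [hQP, one_mul, mul_one]
  have hprod : Matrix.diagonal d * (Q * φ' * P) = 1 := by
    rw [← hQφP]
    calc Q * φ * P * (Q * φ' * P) = Q * φ * (P * Q) * φ' * P := by noncomm_ring
      _ = Q * (φ * φ') * P := by rw [hPQ]; noncomm_ring
      _ = 1 := by rw [hinv, mul_one, hQP]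
  have hY : ∀ i j, d i * (Q * φ' * P) i j = (1 : Matrix ι ι K) i j := by
    intro i j
    rw [← hprod, Matrix.diagonal_mul]
  have hd : ∀ i, d i ≠ 0 := by
    intro i h0
    have := hY i i
    rw [h0, zero_mul, Matrix.one_apply_eq] at this
    exact one_ne_zero this.symm
  have hY2 : Q * φ' * P = Matrix.diagonal (fun i => (d i)⁻¹) := by
    ext i j
    have h1 := hY i j
    by_cases hij : i = j
    · subst hij
      rw [Matrix.one_apply_eq] at h1
      rw [Matrix.diagonal_apply_eq]
      exact eq_inv_of_mul_eq_one_right h1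
    · rw [Matrix.one_apply_ne hij] at h1
      rw [Matrix.diagonal_apply_ne _ hij]
      exact (mul_eq_zero.1 h1).resolve_left (hd i)
  have hent : ∀ (C : Matrix ι ι K) (i j : ι), (Q * (φ * C * φ') * P) i j = d i / d j * (Q * C * P) i j := by
    intro C i j
    have h1 : Q * (φ * C * φ') * P = Matrix.diagonal d * (Q * C * P) * Matrix.diagonal (fun i => (d i)⁻¹) := by
      rw [← hQφP, ← hY2]
      calc Q * (φ * C * φ') * P = Q * φ * 1 * C * 1 * φ' * P := by noncomm_ring
        _ = Q * φ * (P * Q) * C * (P * Q) * φ' * P := by rw [hPQ]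
        _ = _ := by noncomm_ring
    rw [h1, Matrix.mul_diagonal, Matrix.diagonal_mul]
    field_simp
  obtain ⟨C, hC, hC1, hC2⟩ := tr_step hcnj hent hinv hA
    (((Finset.univ : Finset (ι × ι)).image (fun q => d q.1 / d q.2)).erase 1) (Finset.notMem_erase _ _)
  refine ⟨C, hC, ?_, hC2⟩
  have hzero : ∀ i j, d i ≠ d j → (Q * C * P) i j = 0 := by
    intro i j hij
    refine hC1 i j (Finset.mem_erase.2 ⟨?_, Finset.mem_image.2 ⟨(i, j), Finset.mem_univ _, rfl⟩⟩)
    intro h
    exact hij ((div_eq_one_iff_eq (hd j)).1 h)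
  have hcomm : (Q * C * P) * Matrix.diagonal d = Matrix.diagonal d * (Q * C * P) := by
    ext i j
    rw [Matrix.mul_diagonal, Matrix.diagonal_mul]
    by_cases hij : d i = d j
    · rw [hij, mul_comm]
    · rw [hzero i j hij, zero_mul, mul_zero]
  calc C * φ = P * ((Q * C * P) * Matrix.diagonal d) * Q := by
        rw [hφ]
        calc C * (P * Matrix.diagonal d * Q) = 1 * C * P * Matrix.diagonal d * Q := by noncomm_ring
          _ = (P * Q) * C * P * Matrix.diagonal d * Q := by rw [hPQ]
          _ = _ := by noncomm_ring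
    _ = φ * C := by
        rw [hcomm, hφ]
        calc P * (Matrix.diagonal d * (Q * C * P)) * Q = P * Matrix.diagonal d * Q * C * (P * Q) := by noncomm_ring
          _ = _ := by rw [hPQ, mul_one]

/-- An element of the Lie algebra of the torus acts on the eigenvectors of `x` by a function of the eigenvalue which
satisfies all linear relations that come from multiplicative relations between eigenvalues. -/
theorem tor_fun {x X : Matrix ι ι K} (hdg : Diagonalisable x) (hdet : x.det ≠ 0)
    (hX : X ∈ zlie {m | ∃ n : ℕ, m = x ^ n}) :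
    ∃ f : K → K, (∀ (c : K) (z : ι → K), x *ᵥ z = c • z → X *ᵥ z = f c • z) ∧
      ∀ (I : Type) [Fintype I] (lam : I → K) (m : I → ℤ), (∀ s, ∃ z : ι → K, z ≠ 0 ∧ x *ᵥ z = lam s • z) →
        ∏ s, lam s ^ m s = 1 → ∑ s, (m s : K) * f (lam s) = 0 := by
  classical
  obtain ⟨P, Q, d, hPQ, hQP, hx⟩ := hdg
  have hd : ∀ k, d k ≠ 0 := by
    intro k hk
    apply hdet
    rw [hx, Matrix.det_mul, Matrix.det_mul, Matrix.det_diagonal,
      Finset.prod_eq_zero (Finset.mem_univ k) hk, mul_zero, zero_mul]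
  obtain ⟨f₀, hXf, hf⟩ := zlie_pow hPQ hQP hd hx hX
  have hev : ∀ (c : K) (z : ι → K), z ≠ 0 → x *ᵥ z = c • z → ∃ k, d k = c := by
    intro c z hz hxz
    have h1 : Matrix.diagonal d *ᵥ (Q *ᵥ z) = c • (Q *ᵥ z) := by
      rw [← Matrix.mulVec_smul, ← hxz, hx, Matrix.mulVec_mulVec, Matrix.mulVec_mulVec,
        ← mul_assoc, ← mul_assoc, hQP, one_mul]
    obtain ⟨k, hk⟩ : ∃ k, (Q *ᵥ z) k ≠ 0 := by
      by_contra hcon
      push Not at hcon
      apply hz
      have h2 : Q *ᵥ z = 0 := funext hcon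
      have h3 : P *ᵥ (Q *ᵥ z) = z := by rw [Matrix.mulVec_mulVec, hPQ, Matrix.one_mulVec]
      rw [← h3, h2, Matrix.mulVec_zero]
    have h2 := congrFun h1 k
    rw [Matrix.mulVec_diagonal, Pi.smul_apply, smul_eq_mul] at h2
    exact ⟨k, mul_right_cancel₀ hk h2⟩
  obtain ⟨f, hfd⟩ : ∃ f : K → K, ∀ k, f (d k) = f₀ k := by
    refine ⟨fun c => if h : ∃ k, d k = c then f₀ h.choose else 0, fun k => ?_⟩
    have h1 : ∃ k', d k' = d k := ⟨k, rfl⟩
    beta_reduce
    rw [dif_pos h1]
    exact G13_eq hd hf h1.choose_spec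
  refine ⟨f, fun c z hxz => ?_, fun I _ lam m hlam hprod => ?_⟩
  · by_cases hz : z = 0
    · rw [hz, Matrix.mulVec_zero, smul_zero]
    · obtain ⟨k, rfl⟩ := hev c z hz hxz
      rw [hfd]
      exact G13_act hPQ hQP hd hx hXf hf hxz
  · have h1 : ∀ s, ∃ k, d k = lam s := fun s => by
      obtain ⟨z, hz, hxz⟩ := hlam s
      exact hev _ z hz hxz
    choose κ hκ using h1
    have h2 : ∏ k, d k ^ (∑ s ∈ Finset.univ.filter (fun s => κ s = k), m s) = 1 := by
      rw [← hprod]
      have e1 : ∀ k, d k ^ (∑ s ∈ Finset.univ.filter (fun s => κ s = k), m s) =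
          ∏ s ∈ Finset.univ.filter (fun s => κ s = k), lam s ^ m s := by
        intro k
        have e2 : ∀ s ∈ Finset.univ.filter (fun s => κ s = k), lam s ^ m s = d k ^ m s := by
          intro s hs
          rw [← hκ s, (Finset.mem_filter.1 hs).2]
        rw [Finset.prod_congr rfl e2]
        generalize Finset.univ.filter (fun s => κ s = k) = T
        induction T using Finset.induction_on with
        | empty => simp
        | insert a T ha ih => rw [Finset.sum_insert ha, Finset.prod_insert ha, zpow_add₀ (hd k), ih]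
      rw [Finset.prod_congr rfl fun k _ => e1 k]
      exact Finset.prod_fiberwise Finset.univ κ fun s => lam s ^ m s
    have h3 := hf _ h2
    have e3 : ∀ k, ((∑ s ∈ Finset.univ.filter (fun s => κ s = k), m s : ℤ) : K) * f₀ k =
        ∑ s ∈ Finset.univ.filter (fun s => κ s = k), (m s : K) * f (lam s) := by
      intro k
      rw [Int.cast_sum, Finset.sum_mul]
      refine Finset.sum_congr rfl fun s hs => ?_
      rw [← hκ s, (Finset.mem_filter.1 hs).2, hfd]
    rw [Finset.sum_congr rfl fun k _ => e3 k] at h3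
    rw [← h3]
    exact (Finset.sum_fiberwise Finset.univ κ fun s => (m s : K) * f (lam s)).symm

end Pool.Agent.H25W
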