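import Pool.Agent.Lib.H45K.K9

/-!
# Tors: products of Weil numbers which are units at all places above `p` are roots of unity
-/

set_option autoImplicit false
set_option linter.unusedSectionVars false
namespace Pool.Agent.H25W
open Polynomial H45K

variable {Om : Type*} [Field Om] [CharZero Om] [IsAlgClosed Om] [Algebra.IsAlgebraic ℚ Om]
variable {K : Type*} [Field K] [CharZero K] [IsAlgClosed K] {v : K → ℚ}

/-- Kronecker's theorem. -/
theorem root_of_one {ζ : Om} (hz : IsIntegral ℤ ζ) (h : ∀ c : Om →+* ℂ, ‖c ζ‖ = 1) :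
    ∃ n : ℕ, n ≠ 0 ∧ ζ ^ n = 1 := by
  have hfd : FiniteDimensional ℚ (IntermediateField.adjoin ℚ {ζ}) :=
    IntermediateField.adjoin.finiteDimensional (Algebra.IsAlgebraic.isAlgebraic ζ).isIntegral
  have hNF : NumberField (IntermediateField.adjoin ℚ {ζ}) := {}
  have hgi : IsIntegral ℤ (IntermediateField.AdjoinSimple.gen ℚ ζ) := by
    have h2 : IsIntegral ℤ (algebraMap (IntermediateField.adjoin ℚ {ζ}) Om (IntermediateField.AdjoinSimple.gen ℚ ζ)) := by
      rw [IntermediateField.AdjoinSimple.algebraMap_gen]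
      exact hz
    exact (isIntegral_algebraMap_iff (algebraMap (IntermediateField.adjoin ℚ {ζ}) Om).injective).1 h2
  obtain ⟨n, hn, hn1⟩ := NumberField.Embeddings.pow_eq_one_of_norm_eq_one (IntermediateField.adjoin ℚ {ζ}) ℂ hgi fun φ => by
    obtain ⟨s, hs⟩ := IntermediateField.exists_algHom_of_splits_of_aeval (K := ℂ) (F := ℚ) (E := Om)
      (fun x => ⟨(Algebra.IsAlgebraic.isAlgebraic x).isIntegral, IsAlgClosed.splits _⟩) (x := ζ)
      (y := φ (IntermediateField.AdjoinSimple.gen ℚ ζ)) (by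
        have h2 := aeval_algHom_apply φ.toRatAlgHom (IntermediateField.AdjoinSimple.gen ℚ ζ) (minpoly ℚ ζ)
        have h3 : aeval (IntermediateField.AdjoinSimple.gen ℚ ζ) (minpoly ℚ ζ) = 0 := by
          apply (algebraMap (IntermediateField.adjoin ℚ {ζ}) Om).injective
          rw [map_zero, ← aeval_algebraMap_apply, IntermediateField.AdjoinSimple.algebraMap_gen]
          exact minpoly.aeval ℚ _
        rw [h3, map_zero] at h2
        exact h2)
    rw [← hs]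
    exact h s.toRingHom
  refine ⟨n, by omega, ?_⟩
  have h8 := congrArg (algebraMap (IntermediateField.adjoin ℚ {ζ}) Om) hn1
  rwa [map_pow, IntermediateField.AdjoinSimple.algebraMap_gen, map_one] at h8

theorem int_of_val_pow (hv : IsV v) {p : ℕ} (hp : p.Prime) (h1 : v (p : K) = 1) (N : ℕ) (ζ : Om)
    (hζ : IsIntegral ℤ ((p : Om) ^ N * ζ)) (h : ∀ i : Om →+* K, NN v (i ζ)) : IsIntegral ℤ ζ := by
  induction N with
  | zero => rwa [pow_zero, one_mul] at hζ
  | succ N ih =>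
    refine ih (int_of_val hv hp h1 _ ?_ fun i => ?_)
    · rw [← mul_assoc, ← pow_succ']
      exact hζ
    · rw [map_mul, map_pow, map_natCast]
      refine hv.nn_mul ?_ (h i)
      right
      have hpK : (p : K) ≠ 0 := Nat.cast_ne_zero.2 hp.ne_zero
      rw [hv.pow hpK, h1]
      positivity

/-- The properties of the elements of the group generated by the eigenvalues. -/
theorem weil_prop {p : ℕ} (hp : p.Prime) (f : ℤ[X]) (hf : f.Monic)
    (hW : ∀ z : ℂ, aeval z f = 0 → ‖z‖ ^ 2 = p) {z : Omˣ}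
    (hz : z ∈ Subgroup.closure {z : Omˣ | (z : Om) = (p : Om) ∨ aeval (z : Om) f = 0}) :
    (∃ w : ℤ, ∀ c : Om →+* ℂ, ‖c (z : Om)‖ ^ 2 = (p : ℝ) ^ w) ∧
      (∃ N : ℕ, IsIntegral ℤ ((p : Om) ^ N * (z : Om))) ∧ ∃ N : ℕ, IsIntegral ℤ ((p : Om) ^ N * (z : Om)⁻¹) := by
  have hroot : ∀ (x : Om), aeval x f = 0 → ∀ c : Om →+* ℂ, ‖c x‖ ^ 2 = p := by
    intro x hx c
    refine hW _ ?_
    have h2 := congrArg c hx
    rw [map_zero, aeval_def, hom_eval₂] at h2
    rw [aeval_def, show algebraMap ℤ ℂ = c.comp (algebraMap ℤ Om) from RingHom.ext_int _ _]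
    exact h2
  have c₀ : Om →+* ℂ := (IsAlgClosed.lift : Om →ₐ[ℚ] ℂ).toRingHom
  have hpR : (p : ℝ) ≠ 0 := Nat.cast_ne_zero.2 hp.ne_zero
  have hpO : (p : Om) ≠ 0 := Nat.cast_ne_zero.2 hp.ne_zero
  have hpi : IsIntegral ℤ (p : Om) := by
    have := isIntegral_algebraMap (R := ℤ) (A := Om) (x := (p : ℤ))
    rwa [eq_intCast, Int.cast_natCast] at this
  have hinv : ∀ x : Om, x ≠ 0 → aeval x f = 0 → aeval ((p : Om) / x) f = 0 := by
    intro a' h0 ha'
    apply c₀.injective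
    rw [map_zero, aeval_def, hom_eval₂]
    have h2 := hroot a' ha' c₀
    have h3 : c₀ ((p : Om) / a') = (starRingEnd ℂ) (c₀ a') := by
      rw [map_div₀, map_natCast, div_eq_iff ((map_ne_zero c₀).2 h0), mul_comm, Complex.mul_conj, Complex.normSq_eq_norm_sq, h2]
      simp
    rw [h3]
    have h4 : eval₂ (c₀.comp (algebraMap ℤ Om)) ((starRingEnd ℂ) (c₀ a')) f = (starRingEnd ℂ) (c₀ (aeval a' f)) := by
      rw [aeval_def, hom_eval₂, hom_eval₂]
      congr 1
      exact RingHom.ext_int _ _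
    rw [h4, ha', map_zero, map_zero]
  induction hz using Subgroup.closure_induction with
  | mem z hz =>
    rcases hz with hz | hz
    · rw [hz]
      refine ⟨⟨2, fun c => ?_⟩, ⟨0, ?_⟩, 1, ?_⟩
      · rw [map_natCast, Complex.norm_natCast]
        norm_cast
      · rw [pow_zero, one_mul]
        exact hpi
      · rw [pow_one, mul_inv_cancel₀ hpO]
        exact isIntegral_one
    · refine ⟨⟨1, fun c => ?_⟩, ⟨0, ?_⟩, 1, ?_⟩
      · rw [hroot _ hz c, zpow_one]
      · rw [pow_zero, one_mul]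
        exact ⟨f, hf, hz⟩
      · rw [pow_one, ← div_eq_mul_inv]
        exact ⟨f, hf, hinv _ z.ne_zero hz⟩
  | one =>
    refine ⟨⟨0, fun c => ?_⟩, ⟨0, ?_⟩, 0, ?_⟩
    · simp
    · simpa using isIntegral_one
    · simpa using isIntegral_one
  | mul x y _ _ hx hy =>
    obtain ⟨⟨w, hw⟩, ⟨N, hN⟩, ⟨N', hN'⟩⟩ := hx
    obtain ⟨⟨w₂, hw₂⟩, ⟨N₂, hN₂⟩, ⟨N₂', hN₂'⟩⟩ := hy
    refine ⟨⟨w + w₂, fun c => ?_⟩, ⟨N + N₂, ?_⟩, N' + N₂', ?_⟩
    · rw [Units.val_mul, map_mul, norm_mul, mul_pow, hw, hw₂, zpow_add₀ hpR]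
    · have h1 := hN.mul hN₂
      rw [Units.val_mul]
      have e : (p : Om) ^ (N + N₂) * ((x : Om) * (y : Om)) = (p : Om) ^ N * (x : Om) * ((p : Om) ^ N₂ * (y : Om)) := by
        ring
      rw [e]
      exact h1
    · have h1 := hN'.mul hN₂'
      rw [Units.val_mul]
      have e : (p : Om) ^ (N' + N₂') * ((x : Om) * (y : Om))⁻¹ =
          (p : Om) ^ N' * (x : Om)⁻¹ * ((p : Om) ^ N₂' * (y : Om)⁻¹) := by
        rw [mul_inv]
        ring
      rw [e]
      exact h1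
  | inv x _ hx =>
    obtain ⟨⟨w, hw⟩, ⟨N, hN⟩, ⟨N', hN'⟩⟩ := hx
    refine ⟨⟨-w, fun c => ?_⟩, ⟨N', ?_⟩, N, ?_⟩
    · rw [Units.val_inv_eq_inv_val, map_inv₀, norm_inv, inv_pow, hw, zpow_neg]
    · rw [Units.val_inv_eq_inv_val]
      exact hN'
    · rw [Units.val_inv_eq_inv_val, inv_inv]
      exact hN

/-- The power of `p` is trivial. -/
theorem weil_zero {p : ℕ} (hp : p.Prime) {z : Om} (hz0 : z ≠ 0) (hz : IsIntegral ℤ z) (hz' : IsIntegral ℤ z⁻¹)
    {w : ℤ} (hw : ∀ c : Om →+* ℂ, ‖c z‖ ^ 2 = (p : ℝ) ^ w) : w = 0 := by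
  have c₀ : Om →+* ℂ := (IsAlgClosed.lift : Om →ₐ[ℚ] ℂ).toRingHom
  have hpO : (p : Om) ≠ 0 := Nat.cast_ne_zero.2 hp.ne_zero
  have hpQ : (p : ℚ) ≠ 0 := Nat.cast_ne_zero.2 hp.ne_zero
  have hconj : c₀ ((p : Om) ^ w / z) = (starRingEnd ℂ) (c₀ z) := by
    rw [map_div₀, map_zpow₀, map_natCast, div_eq_iff ((map_ne_zero c₀).2 hz0), mul_comm, Complex.mul_conj,
      Complex.normSq_eq_norm_sq, hw]
    push_cast
    rfl
  have hint : ∀ x y : Om, IsIntegral ℤ x → c₀ y = (starRingEnd ℂ) (c₀ x) → IsIntegral ℤ y := by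
    intro x y hx hy
    have h1 : IsIntegral ℤ ((starRingEnd ℂ) (c₀ x)) := by
      have h2 := hx.map (((starRingEnd ℂ).comp c₀).toIntAlgHom)
      exact h2
    rw [← hy] at h1
    exact (isIntegral_algHom_iff c₀.toIntAlgHom c₀.injective).1 h1
  have h1 : IsIntegral ℤ ((p : Om) ^ w / z) := hint z _ hz hconj
  have h2 : IsIntegral ℤ ((p : Om) ^ w / z)⁻¹ := hint z⁻¹ _ hz' (by rw [map_inv₀, hconj, map_inv₀, map_inv₀])
  have h3 : IsIntegral ℤ ((p : Om) ^ w) := by
    have e : (p : Om) ^ w = z * ((p : Om) ^ w / z) := by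
      rw [mul_div_cancel₀ _ hz0]
    rw [e]
    exact hz.mul h1
  have h4 : IsIntegral ℤ ((p : Om) ^ (-w)) := by
    have e : (p : Om) ^ (-w) = z⁻¹ * ((p : Om) ^ w / z)⁻¹ := by
      rw [inv_div, zpow_neg]
      field_simp
    rw [e]
    exact hz'.mul h2
  have hnat : ∀ k : ℤ, 0 < k → ¬ IsIntegral ℤ ((p : Om) ^ (-k)) := by
    intro k hk h5
    have h6 : IsIntegral ℤ ((p : ℚ) ^ (-k)) := by
      have h7 : (p : Om) ^ (-k) = algebraMap ℚ Om ((p : ℚ) ^ (-k)) := by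
        rw [map_zpow₀, map_natCast]
      rw [h7] at h5
      exact (isIntegral_algebraMap_iff (algebraMap ℚ Om).injective).1 h5
    obtain ⟨n, hn⟩ := IsIntegrallyClosed.isIntegral_iff.1 h6
    rw [eq_intCast] at hn
    have h8 : (0 : ℚ) < (p : ℚ) ^ (-k) := zpow_pos (by exact_mod_cast hp.pos) _
    have h9 : (p : ℚ) ^ (-k) < 1 := by
      rw [zpow_neg]
      exact inv_lt_one_of_one_lt₀ (one_lt_zpow₀ (by exact_mod_cast hp.one_lt) hk)
    rw [← hn] at h8 h9
    have h10 : 0 < n := by exact_mod_cast h8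
    have h11 : n < 1 := by exact_mod_cast h9
    omega
  rcases lt_trichotomy w 0 with h | h | h
  · have := hnat (-w) (by omega)
    rw [neg_neg] at this
    exact absurd h3 this
  · exact h
  · exact absurd h4 (hnat w h)

/-- Elements of the group generated by Weil numbers which are units above `p` are roots of unity. -/
theorem tors_units (hv : IsV v) {p : ℕ} (hp : p.Prime) (h1 : v (p : K) = 1) (f : ℤ[X]) (hf : f.Monic)
    (hW : ∀ z : ℂ, aeval z f = 0 → ‖z‖ ^ 2 = p) {z : Omˣ}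
    (hz : z ∈ Subgroup.closure {z : Omˣ | (z : Om) = (p : Om) ∨ aeval (z : Om) f = 0})
    (hvz : ∀ i : Om →+* K, v (i (z : Om)) = 0) : ∃ N : ℕ, N ≠ 0 ∧ z ^ N = 1 := by
  obtain ⟨⟨w, hw⟩, ⟨N, hN⟩, ⟨N', hN'⟩⟩ := weil_prop hp f hf hW hz
  have hzi : IsIntegral ℤ (z : Om) := int_of_val_pow hv hp h1 N _ hN fun i => Or.inr (hvz i).ge
  have hzi' : IsIntegral ℤ (z : Om)⁻¹ := by
    refine int_of_val_pow hv hp h1 N' _ hN' fun i => Or.inr ?_
    have h0 : i (z : Om) ≠ 0 := (map_ne_zero i).2 z.ne_zero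
    have h2 := hv.mul _ _ h0 (inv_ne_zero h0)
    have h3 : v 1 = 0 := by
      have := hv.mul 1 1 one_ne_zero one_ne_zero
      rw [mul_one] at this
      linarith
    rw [mul_inv_cancel₀ h0, h3, hvz, zero_add] at h2
    rw [map_inv₀, ← h2]
  have hw0 := weil_zero hp z.ne_zero hzi hzi' hw
  obtain ⟨n, hn, hn1⟩ := root_of_one hzi fun c => by
    have h2 := hw c
    rw [hw0, zpow_zero] at h2
    have h3 := norm_nonneg (c (z : Om))
    have h5 : (‖c (z : Om)‖ - 1) * (‖c (z : Om)‖ + 1) = 0 := by linear_combination h2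
    rcases mul_eq_zero.1 h5 with h4 | h4
    · linarith
    · linarith
  refine ⟨n, hn, ?_⟩
  apply Units.ext
  rw [Units.val_pow_eq_pow_val, Units.val_one]
  exact hn1

end Pool.Agent.H25W
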